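import Pool.Agent.Work.MP_80ff4e_al_helper60.S2e

/-! # Block S2: `stmt_S2` -/

set_option autoImplicit false

namespace PCF

/-- the setoid of the cosets of a subgroup, transported along a bijection -/
def SR.cosetSetoid {A Ω : Type} [AddCommGroup A] (e : A ≃ Ω) (H : AddSubgroup A) : Setoid Ω where
  r a b := e.symm a - e.symm b ∈ H
  iseqv := by
    refine ⟨fun a => ?_, fun {a b} h => ?_, fun {a b c} h1 h2 => ?_⟩
    · rw [sub_self]; exact H.zero_mem
    · rw [← neg_sub]; exact H.neg_mem h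
    · have : e.symm a - e.symm c = (e.symm a - e.symm b) + (e.symm b - e.symm c) := by abel
      rw [this]; exact H.add_mem h1 h2

/-- a transitive cyclic permutation group is a cyclic group of translations -/
lemma SR.exists_model {Ω : Type} [Finite Ω] (τ : Equiv.Perm Ω)
    (htr : ∀ a b : Ω, ∃ k : ℕ, (τ ^ k) a = b) (c₀ : Ω) :
    ∃ (A : Type) (_ : AddCommGroup A) (_ : Finite A) (_ : IsAddCyclic A) (e : A ≃ Ω),
      e 0 = c₀ ∧ ∀ c, e.permCongr (Equiv.addRight c) ∈ Subgroup.zpowers τ := by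
  classical
  let _ : CommGroup (Subgroup.zpowers τ) := IsCyclic.commGroup
  have hcomm : ∀ (a b : Subgroup.zpowers τ) (w : Ω),
      (a : Equiv.Perm Ω) ((b : Equiv.Perm Ω) w) = (b : Equiv.Perm Ω) ((a : Equiv.Perm Ω) w) := by
    intro a b w
    rw [← Equiv.Perm.mul_apply, ← Equiv.Perm.mul_apply]
    have : a * b = b * a := mul_comm a b
    have h2 := congrArg (fun z : Subgroup.zpowers τ => (z : Equiv.Perm Ω)) this
    simp only [Subgroup.coe_mul] at h2
    rw [h2]
  let f : Additive (Subgroup.zpowers τ) → Ω := fun a =>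
    ((Additive.toMul a : Subgroup.zpowers τ) : Equiv.Perm Ω) c₀
  have hf : Function.Bijective f := by
    constructor
    · intro a b hab
      have h1 : ∀ w, ((Additive.toMul a : Subgroup.zpowers τ) : Equiv.Perm Ω) w =
          ((Additive.toMul b : Subgroup.zpowers τ) : Equiv.Perm Ω) w := by
        intro w
        obtain ⟨k, hk⟩ := htr c₀ w
        have h2 : ((⟨τ ^ k, Subgroup.npow_mem_zpowers τ k⟩ : Subgroup.zpowers τ) :
          Equiv.Perm Ω) c₀ = w := hk
        rw [← h2, hcomm, hcomm (Additive.toMul b)]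
        have h3 : ((Additive.toMul a : Subgroup.zpowers τ) : Equiv.Perm Ω) c₀ =
          ((Additive.toMul b : Subgroup.zpowers τ) : Equiv.Perm Ω) c₀ := hab
        rw [h3]
      have h4 : (Additive.toMul a : Subgroup.zpowers τ) = Additive.toMul b :=
        Subtype.ext (Equiv.ext h1)
      exact Additive.toMul.injective h4
    · intro w
      obtain ⟨k, hk⟩ := htr c₀ w
      exact ⟨Additive.ofMul (⟨τ ^ k, Subgroup.npow_mem_zpowers τ k⟩ : Subgroup.zpowers τ), hk⟩
  refine ⟨Additive (Subgroup.zpowers τ), inferInstance, inferInstance, inferInstance,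
    Equiv.ofBijective f hf, rfl, fun c => ?_⟩
  have h1 : (Equiv.ofBijective f hf).permCongr (Equiv.addRight c) =
      ((Additive.toMul c : Subgroup.zpowers τ) : Equiv.Perm Ω) := by
    ext w
    rw [Equiv.permCongr_apply, Equiv.coe_addRight]
    obtain ⟨a, rfl⟩ := (Equiv.ofBijective f hf).surjective w
    rw [Equiv.symm_apply_apply]
    change ((Additive.toMul (a + c) : Subgroup.zpowers τ) : Equiv.Perm Ω) c₀ =
      ((Additive.toMul c : Subgroup.zpowers τ) : Equiv.Perm Ω)
        (((Additive.toMul a : Subgroup.zpowers τ) : Equiv.Perm Ω) c₀)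
    rw [hcomm, toMul_add, Subgroup.coe_mul, Equiv.Perm.mul_apply]
  rw [h1]
  exact (Additive.toMul c : Subgroup.zpowers τ).2

open Classical in
lemma SR.transfer {A Ω : Type} [AddCommGroup A] [Fintype A] [IsAddCyclic A] [Fintype Ω]
    (e : A ≃ Ω) (G : Subgroup (Equiv.Perm Ω))
    (hG : ∀ c, e.permCongr (Equiv.addRight c) ∈ G) {g : Equiv.Perm Ω} (hg : g ∈ G) {c₀ : Ω}
    (he0 : e 0 = c₀) {r : Ω → ℚ} (hr0 : r ≠ 0)
    (hr : ∀ h ∈ G, ∑ w ∈ Finset.univ.filter (fun w => g.SameCycle c₀ w), r (h w) = 0) :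
    ∃ s₁ s₂ : Setoid Ω, (∀ h ∈ G, ∀ a b, s₁ a b → s₁ (h a) (h b)) ∧
      (∀ h ∈ G, ∀ a b, s₂ a b → s₂ (h a) (h b)) ∧ s₁ ≤ s₂ ∧ s₁ ≠ s₂ ∧
      ∀ a b, g.SameCycle c₀ a → s₂ a b → ∃ c, g.SameCycle c₀ c ∧ s₁ b c := by
  -- transported group
  let G' : Subgroup (Equiv.Perm A) := G.comap (e.permCongrHom.toMonoidHom)
  have hG'mem : ∀ σ : Equiv.Perm A, σ ∈ G' ↔ e.permCongr σ ∈ G := fun σ => Iff.rfl
  have hG' : ∀ c : A, Equiv.addRight c ∈ G' := fun c => hG c
  have hinv : ∀ h ∈ G, e.symm.permCongr h ∈ G' := by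
    intro h hh
    rw [hG'mem]
    have : e.permCongr (e.symm.permCongr h) = h := by
      ext w; simp
    rw [this]; exact hh
  let C : Set A := {a | g.SameCycle c₀ (e a)}
  have hC0 : (0 : A) ∈ C := by
    change g.SameCycle c₀ (e 0)
    rw [he0]
  have hC : ∀ x ∈ C, ∃ h ∈ G', h 0 = x ∧ ∀ y, h y ∈ C ↔ y ∈ C := by
    intro x hx
    obtain ⟨n, hn⟩ : g.SameCycle c₀ (e x) := hx
    refine ⟨e.symm.permCongr (g ^ n), hinv _ (G.zpow_mem hg n), ?_, fun y => ?_⟩
    · rw [Equiv.permCongr_apply]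
      simp [he0, hn]
    · change g.SameCycle c₀ (e _) ↔ g.SameCycle c₀ (e y)
      rw [Equiv.permCongr_apply]
      simp
  have hr' : ∀ h ∈ G', ∑ j ∈ Finset.univ.filter (fun j => j ∈ C), (fun a => r (e a)) (h j) = 0 := by
    intro h hh
    have h1 := hr (e.permCongr h) hh
    rw [← h1]
    refine Finset.sum_bij (fun a _ => e a) ?_ ?_ ?_ ?_
    · intro a ha
      simp only [Finset.mem_filter, Finset.mem_univ, true_and] at ha ⊢
      exact ha
    · intro a _ b _ hab
      exact e.injective hab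
    · intro w hw
      simp only [Finset.mem_filter, Finset.mem_univ, true_and] at hw
      refine ⟨e.symm w, ?_, by simp⟩
      simp only [Finset.mem_filter, Finset.mem_univ, true_and]
      change g.SameCycle c₀ (e (e.symm w))
      rw [Equiv.apply_symm_apply]; exact hw
    · intro a _
      simp [Equiv.permCongr_apply]
  have hr0' : (fun a => r (e a)) ≠ 0 := by
    intro h
    apply hr0
    funext w
    have := congrFun h (e.symm w)
    simpa using this
  obtain ⟨H, B, hH, hB, hHB, hconc⟩ := SR.main_A hG' hC0 hC hr0' (by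
    intro h hh
    have h1 := hr' h hh
    convert h1)
  have hinvar : ∀ K : AddSubgroup A, IsBlkH G' K → ∀ h ∈ G, ∀ a b,
      (SR.cosetSetoid e K) a b → (SR.cosetSetoid e K) (h a) (h b) := by
    intro K hK h hh a b hab
    have h1 := hK _ (hinv h hh) _ _ hab
    change e.symm (h a) - e.symm (h b) ∈ K
    simpa [Equiv.permCongr_apply] using h1
  refine ⟨SR.cosetSetoid e H, SR.cosetSetoid e B, hinvar H hH, hinvar B hB, ?_, ?_, ?_⟩
  · intro a b hab
    exact hHB.le hab
  · intro heq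
    obtain ⟨x, hxB, hxH⟩ := SetLike.exists_of_lt hHB
    apply hxH
    have h1 : (SR.cosetSetoid e B) (e x) (e 0) := by
      change e.symm (e x) - e.symm (e 0) ∈ B
      simpa using hxB
    rw [← heq] at h1
    have h2 : e.symm (e x) - e.symm (e 0) ∈ H := h1
    simpa using h2
  · intro a b ha hab
    have haC : e.symm a ∈ C := by
      change g.SameCycle c₀ (e (e.symm a))
      rw [Equiv.apply_symm_apply]; exact ha
    have hba : e.symm b - e.symm a ∈ B := by
      have : e.symm a - e.symm b ∈ B := hab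
      rw [← neg_sub]; exact B.neg_mem this
    obtain ⟨c, hc, hbc⟩ := hconc _ haC _ hba
    refine ⟨e c, hc, ?_⟩
    change e.symm b - e.symm (e c) ∈ H
    rw [Equiv.symm_apply_apply]; exact hbc

theorem stmt_S2 : Stmt_S2 := by
  intro Ω _ G τ hτ htr g hg c₀ r hr0 hr
  obtain ⟨A, _, _, _, e, he0, he⟩ := SR.exists_model τ htr c₀
  have : Fintype A := Fintype.ofFinite A
  have hle : Subgroup.zpowers τ ≤ G := by
    rw [Subgroup.zpowers_le]; exact hτ
  exact SR.transfer e G (fun c => hle (he c)) hg he0 hr0 hr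

end PCF
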