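import Pool.Agent.Work.MP_80ff4e_al_helper60.S1e

/-! # Block S1: main induction and `stmt_S1` -/

set_option autoImplicit false

namespace PCF
namespace SR

theorem eqv_aux : ∀ n : ℕ, ∀ (A : Type) [AddCommGroup A] [Finite A] [IsAddCyclic A],
    Nat.card A = n → ∀ G : Subgroup (Equiv.Perm A), (∀ c : A, Equiv.addRight c ∈ G) →
      ∀ a b : A, (∀ H : AddSubgroup A, IsBlkH G H → (a ∈ H ↔ b ∈ H)) → Eqv G a b := by
  intro n
  induction n using Nat.strong_induction_on with
  | _ n ih =>
  intro A _ _ _ hn G hG a b hab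
  classical
  by_cases hcase : ∃ H : AddSubgroup A, IsBlkH G H ∧ H ≠ ⊤ ∧ a ∈ H
  · -- restriction to a proper block
    obtain ⟨H, hH, hHtop, haH⟩ := hcase
    have hbH : b ∈ H := (hab H hH).mp haH
    have hlt : Nat.card H < n := by
      rw [← hn]
      have h1 : Nat.card H ≠ Nat.card A := by
        intro h
        exact hHtop (AddSubgroup.eq_top_of_card_eq H h)
      have h2 : Nat.card H ≤ Nat.card A := Nat.le_of_dvd Nat.card_pos
        (AddSubgroup.card_addSubgroup_dvd_card H)
      omega
    have h1 := ih (Nat.card H) hlt H rfl (resG G H) (fun c => res_trans (fun c _ => hG c) c)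
      ⟨a, haH⟩ ⟨b, hbH⟩ (by
        intro H' hH'
        have h2 := hab _ (res_blk (tcl_of_trans hG) hH hH')
        constructor
        · intro h
          obtain ⟨y, hy, hyb⟩ := h2.mp ⟨_, h, rfl⟩
          have : y = ⟨b, hbH⟩ := Subtype.ext hyb
          rwa [← this]
        · intro h
          obtain ⟨y, hy, hya⟩ := h2.mpr ⟨_, h, rfl⟩
          have : y = ⟨a, haH⟩ := Subtype.ext hya
          rwa [← this])
    exact res_eqv h1
  · push Not at hcase
    by_contra hne
    have hane : a ≠ b := by
      rintro rfl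
      exact hne (fun _ _ h => h)
    have hnt : Nontrivial A := ⟨⟨a, b, hane⟩⟩
    have hall : ∀ H : AddSubgroup A, IsBlkH G H → a ∈ H → H = ⊤ := by
      intro H hH ha
      by_contra h
      exact hcase H hH h ha
    have hallb : ∀ H : AddSubgroup A, IsBlkH G H → b ∈ H → H = ⊤ := by
      intro H hH hb
      exact hall H hH ((hab H hH).mpr hb)
    -- minimal nonzero block
    obtain ⟨K, hKmin⟩ : ∃ K, Minimal (fun K : AddSubgroup A => IsBlkH G K ∧ K ≠ ⊥) K := by
      have hfin : {K : AddSubgroup A | IsBlkH G K ∧ K ≠ ⊥}.Finite := Set.toFinite _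
      have hnon : {K : AddSubgroup A | IsBlkH G K ∧ K ≠ ⊥}.Nonempty := by
        refine ⟨⊤, fun g hg i j _ => AddSubgroup.mem_top _, ?_⟩
        exact top_ne_bot
      exact hfin.exists_minimal hnon
    have hK : IsBlkH G K := hKmin.prop.1
    have hK0 : K ≠ ⊥ := hKmin.prop.2
    have hmin : ∀ H : AddSubgroup A, IsBlkH G H → H ≤ K → H = ⊥ ∨ H = K := by
      intro H hH hHK
      by_cases h : H = ⊥
      · exact Or.inl h
      · exact Or.inr (le_antisymm hHK (hKmin.le_of_le ⟨hH, h⟩ hHK))
    have ha0 : a ≠ 0 := by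
      rintro rfl
      exact bot_ne_top (hall ⊥ blk_bot (AddSubgroup.zero_mem _))
    have hb0 : b ≠ 0 := by
      rintro rfl
      exact bot_ne_top (hallb ⊥ blk_bot (AddSubgroup.zero_mem _))
    by_cases hKtop : K = ⊤
    · subst hKtop
      exact hne (prim (fun H hH => hmin H hH le_top) ha0 hb0)
    -- the quotient
    have hcardK : 1 < Nat.card K := by
      have h1 : Nat.card K ≠ 1 := by
        intro h
        exact hK0 (AddSubgroup.card_eq_one.mp h)
      have h2 : 0 < Nat.card K := Nat.card_pos
      omega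
    have hcardA : Nat.card A = Nat.card (A ⧸ K) * Nat.card K :=
      AddSubgroup.card_eq_card_quotient_mul_card_addSubgroup K
    have hqpos : 0 < Nat.card (A ⧸ K) := Nat.card_pos
    have hcyc : IsAddCyclic (A ⧸ K) :=
      isAddCyclic_of_surjective (QuotientAddGroup.mk' K) (QuotientAddGroup.mk'_surjective K)
    have hquo : Eqv (quoG G K) (QuotientAddGroup.mk a : A ⧸ K) (QuotientAddGroup.mk b) := by
      refine ih (Nat.card (A ⧸ K)) ?_ (A ⧸ K) rfl (quoG G K) (quo_trans hG) _ _ ?_
      · rw [← hn, hcardA]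
        exact (lt_mul_iff_one_lt_right hqpos).mpr hcardK
      · intro H hH
        exact hab _ (quo_comap hK hH)
    set T := Bas G a with hTdef
    set T' := Bas G b with hT'def
    have hT : SSet G T := bas_sset a
    have hT' : SSet G T' := bas_sset b
    have hdisj : ∀ x, x ∈ T → x ∈ T' → False := by
      intro x h1 h2
      exact hne (Eqv.trans (c := b) (b := x) h1 (Eqv.symm h2))
    have hT'mem : ∃ k ∈ K, a + k ∈ T' := by
      have h1 : (QuotientAddGroup.mk a : A ⧸ K) ∈
          {y : A ⧸ K | ∃ x ∈ T', QuotientAddGroup.mk x = y} := by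
        refine (Eqv.symm hquo) _ (quo_image hK hT') ⟨b, mem_bas_self b, rfl⟩
      obtain ⟨x, hx, hxa⟩ := h1
      refine ⟨x - a, ?_, by rwa [add_sub_cancel]⟩
      have := QuotientAddGroup.eq.mp hxa.symm
      rwa [neg_add_eq_sub] at this
    -- radical
    have hradK : rad T ⊓ K = ⊥ := by
      rcases hmin _ (blk_inf (blk_rad hT) hK) inf_le_right with h | h
      · exact h
      · exfalso
        obtain ⟨k, hk, hak⟩ := hT'mem
        have hkr : k ∈ rad T := by
          have : k ∈ rad T ⊓ K := by rw [h]; exact hk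
          exact this.1
        exact hdisj (a + k) ((hkr a).mpr (mem_bas_self a)) hak
    -- for each prime `q` dividing `|K|`
    have hprime : ∀ q : ℕ, q.Prime → q ∣ Nat.card K → ∃ J : AddSubgroup A, IsBlkH G J ∧
        J ⊓ K = ⊥ ∧ J ⊔ K = ⊤ ∧ ∀ x ∈ J, ¬ q ∣ addOrderOf x := by
      intro q hq hqK
      have hqf : Fact q.Prime := ⟨hq⟩
      obtain ⟨c', hc'⟩ := exists_prime_addOrderOf_dvd_card' (G := K) q hqK
      set c : A := (c' : A) with hcdef
      have hc : addOrderOf c = q := by rw [hcdef, AddSubgroup.addOrderOf_coe, hc']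
      have hcK : c ∈ K := c'.2
      have hc0 : c ≠ 0 := by
        intro h
        rw [h, addOrderOf_zero] at hc
        exact hq.one_lt.ne hc
      have hne' : (root q c T).Nonempty := by
        by_contra h
        rw [Set.not_nonempty_iff_eq_empty] at h
        have hcr : c ∈ rad T := by
          intro x
          refine fiber hq hc hT (z := q • x) (by rw [h]; exact fun h => h) ?_ rfl
          rw [smul_add]
          nth_rewrite 2 [← hc]
          rw [addOrderOf_nsmul_eq_zero, add_zero]
        have : c ∈ rad T ⊓ K := ⟨hcr, hcK⟩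
        rw [hradK, AddSubgroup.mem_bot] at this
        exact hc0 this
      obtain ⟨b', hb'⟩ := hne'
      have hJ : IsBlkH G (AddSubgroup.closure (root q c T)) := blk_closure (hT.root hq hc)
      refine ⟨AddSubgroup.closure (root q c T), hJ, ?_, ?_, fun x hx => closure_root hq hx⟩
      · rcases hmin _ (blk_inf hJ hK) inf_le_right with h | h
        · exact h
        · exfalso
          have : c ∈ AddSubgroup.closure (root q c T) ⊓ K := by rw [h]; exact hcK
          exact closure_root hq this.1 (by rw [hc])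
      · -- `mk b'` is equivalent to `mk a`
        have hJK := blk_sup hJ hK
        apply hall _ hJK
        have h1 : Eqv (quoG G K) (QuotientAddGroup.mk b' : A ⧸ K) (QuotientAddGroup.mk a) := by
          intro V hV hbV
          have hV' := quo_preimage hK hV
          have hx : ∃ x ∈ T, (QuotientAddGroup.mk x : A ⧸ K) = QuotientAddGroup.mk b' := by
            have h2 := hb'.2
            by_cases h3 : b' ∈ T
            · exact ⟨b', h3, rfl⟩
            · have h4 : b' + c ∈ T := by
                by_contra h5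
                exact h2 ⟨fun h => absurd h h3, fun h => absurd h h5⟩
              refine ⟨b' + c, h4, ?_⟩
              rw [eq_comm, QuotientAddGroup.eq]
              simpa using hcK
          obtain ⟨x, hx, hxb⟩ := hx
          have h6 : x ∈ {x : A | (QuotientAddGroup.mk x : A ⧸ K) ∈ V} := by
            change (QuotientAddGroup.mk x : A ⧸ K) ∈ V
            rw [hxb]; exact hbV
          have h7 : a ∈ {x : A | (QuotientAddGroup.mk x : A ⧸ K) ∈ V} := of_mem_bas hV' hx h6
          exact h7
        have h2 := quo_image hK (blk_sset hJK)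
        have h3 := h1 _ h2 ⟨b', AddSubgroup.mem_sup_left (AddSubgroup.subset_closure hb'), rfl⟩
        obtain ⟨x, hx, hxa⟩ := h3
        have h4 := QuotientAddGroup.eq.mp hxa
        have h5 : a = x + (-x + a) := by abel
        rw [h5]
        exact AddSubgroup.add_mem _ hx (AddSubgroup.mem_sup_right h4)
    have hcardJ : ∀ J : AddSubgroup A, J ⊓ K = ⊥ → J ⊔ K = ⊤ →
        Nat.card (A ⧸ K) = Nat.card J := by
      intro J h1 h2
      symm
      refine Nat.card_congr (Equiv.ofBijective
        (fun x : J => (QuotientAddGroup.mk (x : A) : A ⧸ K)) ⟨?_, ?_⟩)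
      · intro x y hxy
        have h3 := QuotientAddGroup.eq.mp hxy
        have h4 : -(x : A) + y ∈ J ⊓ K := ⟨J.add_mem (J.neg_mem x.2) y.2, h3⟩
        rw [h1, AddSubgroup.mem_bot, neg_add_eq_zero] at h4
        exact Subtype.ext h4
      · intro y
        obtain ⟨y, rfl⟩ := QuotientAddGroup.mk_surjective y
        have h3 : y ∈ J ⊔ K := by rw [h2]; trivial
        obtain ⟨x, hx, z, hz, rfl⟩ := AddSubgroup.mem_sup.mp h3
        refine ⟨⟨x, hx⟩, ?_⟩
        rw [QuotientAddGroup.eq]
        simpa using hz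
    have hcop : (Nat.card (A ⧸ K)).Coprime (Nat.card K) := by
      apply Nat.Coprime.symm
      apply Nat.coprime_of_dvd
      intro q hq hqK hqA
      obtain ⟨J, _, h1, h2, h3⟩ := hprime q hq hqK
      rw [hcardJ J h1 h2] at hqA
      have hqf : Fact q.Prime := ⟨hq⟩
      obtain ⟨x, hx⟩ := exists_prime_addOrderOf_dvd_card' (G := J) q hqA
      apply h3 x x.2
      rw [AddSubgroup.addOrderOf_coe, hx]
    obtain ⟨q, hq, hqK⟩ := Nat.exists_prime_and_dvd hcardK.ne'
    obtain ⟨J, hJ, hJK, hJK', -⟩ := hprime q hq hqK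
    have hcop' : (Nat.card J).Coprime (Nat.card K) := by rw [← hcardJ J hJK hJK']; exact hcop
    have hJtop : J ≠ ⊤ := by
      rintro rfl
      rw [top_inf_eq] at hJK
      exact hK0 hJK
    have haJK : a ∈ J ⊔ K := by rw [hJK']; trivial
    obtain ⟨j, hj, k₀, hk₀, rfl⟩ := AddSubgroup.mem_sup.mp haJK
    obtain ⟨k, hk, hak⟩ := hT'mem
    have hk₀0 : k₀ ≠ 0 := by
      rintro rfl
      exact hJtop (hall J hJ (by simpa using hj))
    have hk0 : k₀ + k ≠ 0 := by
      intro h
      rw [add_assoc, h, add_zero] at hak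
      exact hJtop (hallb J hJ (of_mem_bas (blk_sset hJ) hak hj))
    have hfin := eqv_of_sum hG hJ hK hJK hJK' hcop' hmin hj hk₀ (K.add_mem hk₀ hk) hk₀0 hk0
    rw [← add_assoc] at hfin
    exact hdisj _ hfin hak

theorem eqv_of_blk {A : Type} [AddCommGroup A] [Finite A] [IsAddCyclic A]
    {G : Subgroup (Equiv.Perm A)} (hG : ∀ c : A, Equiv.addRight c ∈ G)
    {a b : A} (h : ∀ H : AddSubgroup A, IsBlkH G H → (a ∈ H ↔ b ∈ H)) : Eqv G a b :=
  eqv_aux _ A rfl G hG a b h

end SR

theorem stmt_S1 : Stmt_S1 := by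
  intro A _ _ _ G hG v hv a b hab
  have h1 := SR.eqv_of_blk hG hab
  have hv' : SR.SFun G v := by
    refine ⟨hv.1, fun u hu x => ?_⟩
    apply hv.2
    have hc : (addOrderOf x).Coprime u :=
      (Nat.Coprime.coprime_dvd_right (addOrderOf_dvd_natCard x) hu).symm
    exact Nat.Coprime.addOrderOf_nsmul hc
  have h2 := h1 _ (hv'.sset (fun z => z = v a)) rfl
  exact h2.symm

end PCF
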