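import Pool.Agent.Work.MP_80ff4e_al.Interface

/-! # Block S1, part a: invariant functions, `S`-sets, convolution, the root lemma -/

set_option autoImplicit false

open AddMonoidAlgebra

namespace PCF
namespace SR

variable {A : Type} [AddCommGroup A]

/-- `w (i - j)` is a `G`-invariant kernel and `w` is invariant under multiplication by units. -/
structure SFun {R : Type*} (G : Subgroup (Equiv.Perm A)) (w : A → R) : Prop where
  inv : ∀ g ∈ G, ∀ i j : A, w (g i - g j) = w (i - j)
  rat : ∀ u : ℕ, u.Coprime (Nat.card A) → ∀ x, w (u • x) = w x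

/-- An `S`-set. -/
def SSet (G : Subgroup (Equiv.Perm A)) (T : Set A) : Prop := SFun G (fun x => x ∈ T)

variable {G : Subgroup (Equiv.Perm A)}

lemma SFun.comp {R S : Type*} {w : A → R} (hw : SFun G w) (f : R → S) :
    SFun G (fun x => f (w x)) :=
  ⟨fun g hg i j => by rw [hw.inv g hg i j], fun u hu x => by rw [hw.rat u hu x]⟩

lemma SFun.prod {R S : Type*} {w : A → R} {w' : A → S} (hw : SFun G w) (hw' : SFun G w') :
    SFun G (fun x => (w x, w' x)) :=
  ⟨fun g hg i j => by rw [hw.inv g hg i j, hw'.inv g hg i j],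
    fun u hu x => by rw [hw.rat u hu x, hw'.rat u hu x]⟩

lemma SFun.sset {R : Type*} {w : A → R} (hw : SFun G w) (p : R → Prop) :
    SSet G {x | p (w x)} := hw.comp p

lemma SSet.compl {T : Set A} (h : SSet G T) : SSet G Tᶜ := SFun.comp h (fun p => ¬ p)

lemma SSet.inter {T U : Set A} (h : SSet G T) (h' : SSet G U) : SSet G (T ∩ U) :=
  (SFun.prod h h').comp (fun p => p.1 ∧ p.2)

lemma SSet.inv' {T : Set A} (h : SSet G T) {g : Equiv.Perm A} (hg : g ∈ G) (i j : A) :
    g i - g j ∈ T ↔ i - j ∈ T := by
  have := h.inv g hg i j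
  simpa using this

lemma SSet.rat' {T : Set A} (h : SSet G T) {u : ℕ} (hu : u.Coprime (Nat.card A)) (x : A) :
    u • x ∈ T ↔ x ∈ T := by
  have := h.rat u hu x
  simpa using this

lemma exists_inv_unit [Finite A] {u : ℕ} (hu : u.Coprime (Nat.card A)) :
    ∃ v : ℕ, v.Coprime (Nat.card A) ∧ ∀ x : A, v • u • x = x := by
  have hpos : 0 < Nat.card A := Nat.card_pos
  rcases Nat.lt_or_ge 1 (Nat.card A) with h1 | h1
  · obtain ⟨v, hv⟩ := Nat.exists_mul_mod_eq_one_of_coprime hu h1
    have hv' : (u * v) % Nat.card A = 1 := hv.2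
    refine ⟨v, ?_, fun x => ?_⟩
    · apply Nat.coprime_of_mul_modEq_one u
      rw [mul_comm]
      unfold Nat.ModEq
      rw [hv', Nat.mod_eq_of_lt h1]
    · rw [← mul_nsmul]
      conv_rhs => rw [← one_nsmul x]
      rw [← hv']
      exact (mod_natCard_nsmul x _).symm
  · have hc : Nat.card A = 1 := by omega
    have hs : Subsingleton A := (Nat.card_eq_one_iff_unique.mp hc).1
    exact ⟨1, by simp, fun x => Subsingleton.elim _ _⟩

lemma SSet.mk' [Finite A] {T : Set A} (h1 : ∀ g ∈ G, ∀ i j : A, i - j ∈ T → g i - g j ∈ T)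
    (h2 : ∀ u : ℕ, u.Coprime (Nat.card A) → ∀ x ∈ T, u • x ∈ T) : SSet G T := by
  refine ⟨fun g hg i j => ?_, fun u hu x => ?_⟩
  · refine propext ⟨fun h => ?_, h1 g hg i j⟩
    have := h1 g⁻¹ (G.inv_mem hg) _ _ h
    simpa using this
  · refine propext ⟨fun h => ?_, h2 u hu x⟩
    obtain ⟨v, hv, hvu⟩ := exists_inv_unit hu
    have := h2 v hv _ h
    rwa [hvu] at this

/-- In a cyclic group elements of the same order differ by a unit. -/
lemma exists_unit_of_order [Finite A] [IsAddCyclic A] {a b : A}
    (h : addOrderOf a = addOrderOf b) :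
    ∃ u : ℕ, u.Coprime (Nat.card A) ∧ b = u • a := by
  classical
  have := Fintype.ofFinite A
  have hpos : 0 < Nat.card A := Nat.card_pos
  have : NeZero (Nat.card A) := ⟨hpos.ne'⟩
  set d := addOrderOf a with hd
  have hd0 : 0 < d := addOrderOf_pos a
  have hdn : d ∣ Nat.card A := addOrderOf_dvd_natCard a
  -- b ∈ zmultiples a
  have hmem : b ∈ AddSubgroup.zmultiples a := by
    have hsub : ((Finset.range d).image (fun i => i • a)) ⊆
        (Finset.univ.filter (fun x : A => d • x = 0)) := by
      intro x hx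
      rw [Finset.mem_image] at hx
      obtain ⟨i, -, rfl⟩ := hx
      simp only [Finset.mem_filter, Finset.mem_univ, true_and]
      rw [← mul_nsmul, mul_nsmul', hd, addOrderOf_nsmul_eq_zero, smul_zero]
    have hcard : ((Finset.range d).image (fun i => i • a)).card = d := by
      rw [Finset.card_image_of_injOn, Finset.card_range]
      intro i hi j hj hij
      simp only [Finset.coe_range, Set.mem_Iio] at hi hj
      exact nsmul_injOn_Iio_addOrderOf hi hj hij
    have hle := IsAddCyclic.card_nsmul_eq_zero_le (α := A) (n := d) hd0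
    have heq := Finset.eq_of_subset_of_card_le hsub (by rw [hcard]; exact hle)
    have hb : b ∈ (Finset.univ.filter (fun x : A => d • x = 0)) := by
      simp only [Finset.mem_filter, Finset.mem_univ, true_and]
      rw [h]; exact addOrderOf_nsmul_eq_zero b
    rw [← heq, Finset.mem_image] at hb
    obtain ⟨i, -, rfl⟩ := hb
    exact AddSubgroup.nsmul_mem_zmultiples a i
  obtain ⟨k, hk⟩ : ∃ k : ℕ, k • a = b := by
    rw [mem_zmultiples_iff_mem_range_addOrderOf] at hmem
    rw [Finset.mem_image] at hmem
    obtain ⟨i, -, hi⟩ := hmem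
    exact ⟨i, hi⟩
  have hkd : k.Coprime d := by
    have h3 : addOrderOf (k • a) = d := by rw [hk, ← h]
    rcases Nat.eq_zero_or_pos k with h0 | h0
    · subst h0
      rw [zero_nsmul, addOrderOf_zero] at h3
      rw [← h3]; simp
    · rw [addOrderOf_nsmul' a h0.ne'] at h3
      rw [← hd] at h3
      have hg : Nat.gcd d k ∣ d := Nat.gcd_dvd_left _ _
      have hgp : 0 < Nat.gcd d k := Nat.gcd_pos_of_pos_left _ hd0
      have h4 : d / Nat.gcd d k * Nat.gcd d k = d := Nat.div_mul_cancel hg
      rw [h3] at h4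
      have : Nat.gcd d k = 1 := by
        have := Nat.eq_of_mul_eq_mul_left hd0 (h4.trans (mul_one d).symm)
        exact this
      rw [Nat.coprime_comm]; exact this
  have : NeZero d := ⟨hd0.ne'⟩
  obtain ⟨u, hu⟩ := ZMod.unitsMap_surjective hdn (ZMod.unitOfCoprime k hkd)
  refine ⟨(u : ZMod (Nat.card A)).val, ZMod.val_coe_unit_coprime u, ?_⟩
  rw [← hk]
  have h5 : ((u : ZMod (Nat.card A)).val : ZMod d) = (k : ZMod d) := by
    have h6 := congrArg (fun z : (ZMod d)ˣ => (z : ZMod d)) hu
    simp only [ZMod.unitsMap_def, Units.coe_map, ZMod.coe_unitOfCoprime] at h6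
    rw [← h6]
    simp [ZMod.natCast_val]
  rw [ZMod.natCast_eq_natCast_iff] at h5
  rw [hd] at h5
  exact (nsmul_eq_nsmul_iff_modEq.mpr h5.symm)

lemma SSet.order [Finite A] [IsAddCyclic A] {T : Set A} (h : SSet G T) {a b : A}
    (hab : addOrderOf a = addOrderOf b) : a ∈ T ↔ b ∈ T := by
  obtain ⟨u, hu, rfl⟩ := exists_unit_of_order hab
  exact (h.rat' hu a).symm

lemma SSet.neg_mem [Finite A] [IsAddCyclic A] {T : Set A} (h : SSet G T) {a : A} :
    -a ∈ T ↔ a ∈ T := h.order (addOrderOf_neg a)

/-- multiplication of invariant elements of the group algebra -/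
lemma SFun.mul [Finite A] {R : Type*} [CommSemiring R] {x y : AddMonoidAlgebra R A}
    (hx : SFun G x.coeff) (hy : SFun G y.coeff) : SFun G (x * y).coeff := by
  classical
  have := Fintype.ofFinite A
  have key : ∀ c, (x * y).coeff c = ∑ h : A, x.coeff h * y.coeff (-h + c) := by
    intro c
    rw [AddMonoidAlgebra.coeff_mul_apply_left, Finsupp.sum_fintype]
    intro i; simp
  refine ⟨fun g hg i j => ?_, fun u hu c => ?_⟩
  · rw [key, key]
    refine Fintype.sum_bijective (fun h => i - g⁻¹ (g i - h)) ?_ _ _ (fun h => ?_)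
    · have h1 : Function.Bijective (fun h : A => g i - h) := (Equiv.subLeft (g i)).bijective
      have h2 : Function.Bijective (fun h : A => i - h) := (Equiv.subLeft i).bijective
      exact h2.comp ((g⁻¹).bijective.comp h1)
    · -- h = g i - g k, k = g⁻¹ (g i - h)
      set k := g⁻¹ (g i - h) with hk
      have hgk : g k = g i - h := by simp [hk]
      have e1 : h = g i - g k := by rw [hgk]; abel
      have e2 : -h + (g i - g j) = g k - g j := by rw [hgk]; abel
      have e3 : -(i - k) + (i - j) = k - j := by abel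
      rw [e2, e3, hy.inv g hg]
      conv_lhs => rw [e1, hx.inv g hg]
  · rw [key, key]
    obtain ⟨v, hv, hvu⟩ := exists_inv_unit hu
    have hbij : Function.Bijective (fun h : A => v • h) := by
      obtain ⟨w, hw, hwv⟩ := exists_inv_unit hv
      rw [← Finite.injective_iff_bijective]
      intro a b hab
      simp only at hab
      rw [← hwv a, ← hwv b, hab]
    refine Fintype.sum_bijective (fun h => v • h) hbij _ _ (fun h => ?_)
    rw [hx.rat v hv h]
    congr 1
    rw [← hy.rat v hv (-h + u • c), smul_add, hvu, smul_neg]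

lemma SFun.one [Finite A] {R : Type*} [CommSemiring R] :
    SFun G (1 : AddMonoidAlgebra R A).coeff := by
  classical
  have key : ∀ c : A, (1 : AddMonoidAlgebra R A).coeff c = if c = 0 then 1 else 0 := by
    intro c
    rw [AddMonoidAlgebra.one_def, AddMonoidAlgebra.coeff_single, Finsupp.single_apply]
    simp [eq_comm]
  refine ⟨fun g hg i j => ?_, fun u hu c => ?_⟩
  · rw [key, key]
    simp [sub_eq_zero]
  · rw [key, key]
    obtain ⟨v, hv, hvu⟩ := exists_inv_unit hu
    by_cases hc : c = 0
    · simp [hc]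
    · rw [if_neg hc, if_neg]
      intro h
      apply hc
      rw [← hvu c, h, nsmul_zero]

lemma SFun.pow [Finite A] {R : Type*} [CommSemiring R] {x : AddMonoidAlgebra R A}
    (hx : SFun G x.coeff) (n : ℕ) : SFun G (x ^ n).coeff := by
  induction n with
  | zero => rw [pow_zero]; exact SFun.one
  | succ n ih => rw [pow_succ]; exact ih.mul hx

end SR
end PCF
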