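import Pool.Agent.Work.MP_80ff4e_al_helper60.S1a

/-! # Block S1, part b: root lemma, generated blocks, radical, primitive case -/

set_option autoImplicit false

open AddMonoidAlgebra

namespace PCF
namespace SR

variable {A : Type} [AddCommGroup A] {G : Subgroup (Equiv.Perm A)}

/-- order of a solution of `q x = z`, `q` prime, `z ≠ 0` allowed to be anything -/
lemma order_cases {q : ℕ} (hq : q.Prime) {x z : A} (hz : q • x = z) :
    (¬ q ∣ addOrderOf x ∧ addOrderOf x = addOrderOf z) ∨
      (q ∣ addOrderOf x ∧ addOrderOf x = q * addOrderOf z) := by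
  have h := addOrderOf_nsmul' x hq.ne_zero
  rw [hz] at h
  by_cases hd : q ∣ addOrderOf x
  · right
    refine ⟨hd, ?_⟩
    rw [Nat.gcd_eq_right hd] at h
    rw [h, Nat.mul_div_cancel' hd]
  · left
    refine ⟨hd, ?_⟩
    have : Nat.gcd (addOrderOf x) q = 1 := by
      rw [Nat.gcd_comm]
      exact (Nat.Prime.coprime_iff_not_dvd hq).mpr hd
    rw [this, Nat.div_one] at h
    exact h.symm

/-- order of `x + c` for `c` of prime order `q` not dividing the order of `x`. -/
lemma order_add {q : ℕ} (hq : q.Prime) {x c : A} (hc : addOrderOf c = q)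
    (hx : ¬ q ∣ addOrderOf x) : addOrderOf (x + c) = q * addOrderOf x := by
  have hcop : (addOrderOf x).Coprime (addOrderOf c) := by
    rw [hc, Nat.coprime_comm]; exact (Nat.Prime.coprime_iff_not_dvd hq).mpr hx
  rw [AddCommute.addOrderOf_add_eq_mul_addOrderOf_of_coprime (AddCommute.all x c) hcop, hc,
    mul_comm]

/-- the `q`-root of `T` -/
def root (q : ℕ) (c : A) (T : Set A) : Set A :=
  {b | ¬ q ∣ addOrderOf b ∧ ¬ (b ∈ T ↔ b + c ∈ T)}

/-- If `z` is not in the root then all solutions of `q x = z` are in `T` or none is. -/
lemma fiber [Finite A] [IsAddCyclic A] {q : ℕ} (hq : q.Prime) {c : A} (hc : addOrderOf c = q)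
    {T : Set A} (hT : SSet G T) {z : A} (hz : z ∉ root q c T) {x x' : A} (hx : q • x = z)
    (hx' : q • x' = z) : x ∈ T ↔ x' ∈ T := by
  by_cases hd : q ∣ addOrderOf z
  · have key : ∀ y : A, q • y = z → addOrderOf y = q * addOrderOf z := by
      intro y hy
      rcases order_cases hq hy with ⟨h1, h2⟩ | ⟨h1, h2⟩
      · exact absurd (h2 ▸ hd) h1
      · exact h2
    exact hT.order (by rw [key x hx, key x' hx'])
  · have hz' : z ∈ T ↔ z + c ∈ T := by
      by_contra h
      exact hz ⟨hd, h⟩
    have key : ∀ y : A, q • y = z → (y ∈ T ↔ z ∈ T) := by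
      intro y hy
      rcases order_cases hq hy with ⟨h1, h2⟩ | ⟨h1, h2⟩
      · exact hT.order h2
      · rw [hz']
        exact hT.order (by rw [h2, order_add hq hc hd])
    rw [key x hx, key x' hx']

/-- The root of an `S`-set is an `S`-set. -/
lemma SSet.root [Finite A] [IsAddCyclic A] {q : ℕ} (hq : q.Prime) {c : A}
    (hc : addOrderOf c = q) {T : Set A} (hT : SSet G T) : SSet G (root q c T) := by
  classical
  have := Fintype.ofFinite A
  have hqf : Fact q.Prime := ⟨hq⟩
  let f : AddMonoidAlgebra (ZMod q) A := ∑ t ∈ Finset.univ.filter (fun t => t ∈ T), single t 1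
  have hfc : ∀ x : A, f.coeff x = if x ∈ T then 1 else 0 := by
    intro x
    simp only [f, AddMonoidAlgebra.coeff_sum, AddMonoidAlgebra.coeff_single, Finsupp.finsetSum_apply,
      Finsupp.single_apply, Finset.sum_ite_eq', Finset.mem_filter, Finset.mem_univ, true_and]
  have hf : SFun G f.coeff := by
    have h1 : SFun G (fun x : A => if x ∈ T then (1 : ZMod q) else 0) :=
      SFun.comp (w := fun x => x ∈ T) hT (fun p : Prop => if p then (1 : ZMod q) else 0)
    have h2 : (f.coeff : A → ZMod q) = (fun x : A => if x ∈ T then (1 : ZMod q) else 0) :=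
      funext hfc
    rw [h2]; exact h1
  have hchar : CharP (AddMonoidAlgebra (ZMod q) A) q :=
    charP_of_injective_algebraMap (algebraMap (ZMod q) (AddMonoidAlgebra (ZMod q) A)).injective q
  have hpow : f ^ q = ∑ t ∈ Finset.univ.filter (fun t => t ∈ T), single (q • t) (1 : ZMod q) := by
    simp only [f]
    rw [sum_pow_char]
    refine Finset.sum_congr rfl (fun t _ => ?_)
    rw [AddMonoidAlgebra.single_pow, one_pow]
  -- coefficient of the power
  have hcoef : ∀ y : A, (f ^ q).coeff y =
      ((Finset.univ.filter (fun t => q • t = y ∧ t ∈ T)).card : ZMod q) := by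
    intro y
    rw [hpow]
    simp only [AddMonoidAlgebra.coeff_sum, AddMonoidAlgebra.coeff_single,
      Finsupp.finsetSum_apply, Finsupp.single_apply]
    rw [Finset.sum_ite, Finset.sum_const_zero, add_zero, Finset.sum_const, nsmul_eq_mul, mul_one,
      Finset.filter_filter]
    congr 2
    ext t
    simp [and_comm]
  -- number of solutions
  have hsol : ∀ y : A, ((Finset.univ.filter (fun t : A => q • t = y)).card : ZMod q) = 0 := by
    intro y
    rw [ZMod.natCast_eq_zero_iff]
    by_cases hy : ∃ x, q • x = y
    · obtain ⟨x, hx⟩ := hy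
      let P : AddSubgroup A := (nsmulAddMonoidHom (α := A) q).ker
      have hcP : c ∈ P := by
        rw [AddMonoidHom.mem_ker]
        change q • c = 0
        rw [← hc]; exact addOrderOf_nsmul_eq_zero c
      have h1 : (Finset.univ.filter (fun t : A => q • t = y)).card = Nat.card P := by
        rw [← Fintype.card_subtype, ← Nat.card_eq_fintype_card]
        refine Nat.card_congr ⟨fun t => ⟨t.1 - x, ?_⟩, fun p => ⟨p.1 + x, ?_⟩, ?_, ?_⟩
        · rw [AddMonoidHom.mem_ker]
          change q • (t.1 - x) = 0
          rw [smul_sub, t.2, hx, sub_self]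
        · have := p.2
          rw [AddMonoidHom.mem_ker] at this
          change q • p.1 = 0 at this
          rw [smul_add, this, hx, zero_add]
        · intro t; simp
        · intro p; simp
      rw [h1]
      have h2 : addOrderOf (⟨c, hcP⟩ : P) ∣ Nat.card P := addOrderOf_dvd_natCard _
      rwa [AddSubgroup.addOrderOf_mk, hc] at h2
    · have : (Finset.univ.filter (fun t : A => q • t = y)) = ∅ := by
        rw [Finset.filter_eq_empty_iff]
        intro x _ hx
        exact hy ⟨x, hx⟩
      rw [this]; simp
  have hroot : SR.root q c T = {y | (f ^ q).coeff y ≠ 0} := by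
    ext y
    simp only [Set.mem_ofPred_eq]
    rw [hcoef]
    constructor
    · rintro ⟨hd, hxor⟩
      -- the solution of order prime to `q`
      obtain ⟨x, hx, hxd⟩ : ∃ x : A, q • x = y ∧ ¬ q ∣ addOrderOf x := by
        have hcop : q.Coprime (addOrderOf y) := (Nat.Prime.coprime_iff_not_dvd hq).mpr hd
        rcases Nat.lt_or_ge 1 (addOrderOf y) with h1 | h1
        · obtain ⟨k, -, hk⟩ := Nat.exists_mul_mod_eq_one_of_coprime hcop h1
          refine ⟨k • y, ?_, ?_⟩
          · rw [← mul_nsmul', ← mod_addOrderOf_nsmul y (q * k), hk, one_nsmul]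
          · intro h
            exact hd (h.trans (addOrderOf_smul_dvd k))
        · have h2 : addOrderOf y = 1 := le_antisymm h1 (addOrderOf_pos y)
          rw [AddMonoid.addOrderOf_eq_one_iff] at h2
          subst h2
          refine ⟨0, by simp, ?_⟩
          rw [addOrderOf_zero]
          intro h
          exact hq.one_lt.ne' (Nat.dvd_one.mp h)
      have hxy : addOrderOf x = addOrderOf y := by
        rcases order_cases hq hx with ⟨_, h2⟩ | ⟨h1, _⟩
        · exact h2
        · exact absurd h1 hxd
      have huniq : ∀ t : A, q • t = y → t ≠ x → addOrderOf t = q * addOrderOf y := by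
        intro t ht htx
        rcases order_cases hq ht with ⟨h1, h2⟩ | ⟨h1, h2⟩
        · exfalso
          apply htx
          have h3 : q • (t - x) = 0 := by rw [smul_sub, ht, hx, sub_self]
          have h4 : addOrderOf (t - x) ∣ q := addOrderOf_dvd_iff_nsmul_eq_zero.mpr h3
          have h5 : (addOrderOf y) • (t - x) = 0 := by
            rw [smul_sub]
            rw [← h2, addOrderOf_nsmul_eq_zero, h2, ← hxy, addOrderOf_nsmul_eq_zero, sub_zero]
          have h6 : addOrderOf (t - x) ∣ addOrderOf y := addOrderOf_dvd_iff_nsmul_eq_zero.mpr h5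
          have hcop : q.Coprime (addOrderOf y) := (Nat.Prime.coprime_iff_not_dvd hq).mpr hd
          have h7 : addOrderOf (t - x) = 1 := Nat.eq_one_of_dvd_coprimes hcop h4 h6
          rw [AddMonoid.addOrderOf_eq_one_iff, sub_eq_zero] at h7
          exact h7
        · exact h2
      have hxT : x ∈ T ↔ y ∈ T := hT.order hxy
      have hoT : ∀ t : A, q • t = y → t ≠ x → (t ∈ T ↔ y + c ∈ T) := fun t ht htx =>
        hT.order (by rw [huniq t ht htx, order_add hq hc hd])
      by_cases hyT : y ∈ T
      · have hyc : y + c ∉ T := fun h => hxor ⟨fun _ => h, fun _ => hyT⟩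
        have : Finset.univ.filter (fun t => q • t = y ∧ t ∈ T) = {x} := by
          ext t
          simp only [Finset.mem_filter, Finset.mem_univ, true_and, Finset.mem_singleton]
          constructor
          · rintro ⟨h1, h2⟩
            by_contra h3
            exact hyc ((hoT t h1 h3).mp h2)
          · rintro rfl
            exact ⟨hx, hxT.mpr hyT⟩
        rw [this, Finset.card_singleton]
        simp
      · have hyc : y + c ∈ T := by
          by_contra h
          exact hxor ⟨fun h' => absurd h' hyT, fun h' => absurd h' h⟩
        have : Finset.univ.filter (fun t => q • t = y ∧ t ∈ T) =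
            (Finset.univ.filter (fun t : A => q • t = y)).erase x := by
          ext t
          simp only [Finset.mem_filter, Finset.mem_univ, true_and, Finset.mem_erase]
          constructor
          · rintro ⟨h1, h2⟩
            refine ⟨?_, h1⟩
            rintro rfl
            exact hyT (hxT.mp h2)
          · rintro ⟨h1, h2⟩
            exact ⟨h2, (hoT t h2 h1).mpr hyc⟩
        rw [this]
        have hxm : x ∈ Finset.univ.filter (fun t : A => q • t = y) := by simp [hx]
        intro h0
        have h1 := Finset.card_erase_add_one hxm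
        have h2 := hsol y
        rw [← h1] at h2
        push_cast at h2
        rw [h0, zero_add] at h2
        exact one_ne_zero h2
    · intro hne
      by_contra hy
      apply hne
      by_cases hall : ∃ t, q • t = y ∧ t ∈ T
      · obtain ⟨t, ht, htT⟩ := hall
        have : Finset.univ.filter (fun t => q • t = y ∧ t ∈ T) =
            Finset.univ.filter (fun t : A => q • t = y) := by
          ext s
          simp only [Finset.mem_filter, Finset.mem_univ, true_and, and_iff_left_iff_imp]
          intro hs
          exact (fiber hq hc hT hy ht hs).mp htT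
        rw [this]
        exact hsol y
      · have : Finset.univ.filter (fun t => q • t = y ∧ t ∈ T) = ∅ := by
          rw [Finset.filter_eq_empty_iff]
          intro t _ ht
          exact hall ⟨t, ht⟩
        rw [this]; simp
  rw [hroot]
  exact (hf.pow q).sset (fun z => z ≠ 0)

end SR
end PCF
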