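import Pool.Agent.Work.MP_80ff4e_al_helper60.S1b

/-! # Block S1, part c: basic sets, blocks, primitive case -/

set_option autoImplicit false

open AddMonoidAlgebra

namespace PCF
namespace SR

variable {A : Type} [AddCommGroup A] {G : Subgroup (Equiv.Perm A)}

/-- `a` and `b` are in the same `S`-sets. -/
def Eqv (G : Subgroup (Equiv.Perm A)) (a b : A) : Prop := ∀ T : Set A, SSet G T → a ∈ T → b ∈ T

lemma Eqv.symm {a b : A} (h : Eqv G a b) : Eqv G b a := by
  intro T hT hb
  by_contra ha
  exact h Tᶜ hT.compl ha hb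

lemma Eqv.trans {a b c : A} (h : Eqv G a b) (h' : Eqv G b c) : Eqv G a c :=
  fun T hT ha => h' T hT (h T hT ha)

/-- the basic set of `a` -/
def Bas (G : Subgroup (Equiv.Perm A)) (a : A) : Set A := {x | Eqv G a x}

lemma mem_bas_self (a : A) : a ∈ Bas G a := fun _ _ h => h

lemma bas_sset (a : A) : SSet G (Bas G a) := by
  refine ⟨fun g hg i j => ?_, fun u hu x => ?_⟩
  · refine propext ⟨fun h T hT ha => (hT.inv' hg i j).mp (h T hT ha),
      fun h T hT ha => (hT.inv' hg i j).mpr (h T hT ha)⟩
  · refine propext ⟨fun h T hT ha => (hT.rat' hu x).mp (h T hT ha),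
      fun h T hT ha => (hT.rat' hu x).mpr (h T hT ha)⟩

lemma of_mem_bas {a x : A} {U : Set A} (hU : SSet G U) (hx : x ∈ Bas G a) (hxU : x ∈ U) :
    a ∈ U := Eqv.symm hx U hU hxU

/-! blocks -/

lemma blk_sset [Finite A] {H : AddSubgroup A} (hH : IsBlkH G H) : SSet G (H : Set A) :=
  SSet.mk' (fun g hg i j h => hH g hg i j h) (fun _ _ _ hx => H.nsmul_mem hx _)

lemma blk_of_sset [Finite A] {H : AddSubgroup A} (hH : SSet G (H : Set A)) : IsBlkH G H :=
  fun _ hg i j h => (hH.inv' hg i j).mpr h

lemma blk_bot : IsBlkH G (⊥ : AddSubgroup A) := by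
  intro g _ i j h
  rw [AddSubgroup.mem_bot, sub_eq_zero] at h ⊢
  rw [h]

lemma blk_inf {H K : AddSubgroup A} (hH : IsBlkH G H) (hK : IsBlkH G K) : IsBlkH G (H ⊓ K) :=
  fun g hg i j h => ⟨hH g hg i j h.1, hK g hg i j h.2⟩

lemma blk_sup {H K : AddSubgroup A} (hH : IsBlkH G H) (hK : IsBlkH G K) : IsBlkH G (H ⊔ K) := by
  intro g hg i j h
  obtain ⟨a, ha, b, hb, hab⟩ := AddSubgroup.mem_sup.mp h
  have h1 : g i - g (j + b) ∈ H := hH g hg i (j + b) (by
    have : i - (j + b) = a := by
      have : i = a + b + j := by rw [hab]; abel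
      rw [this]; abel
    rw [this]; exact ha)
  have h2 : g (j + b) - g j ∈ K := hK g hg _ _ (by simpa using hb)
  have : g i - g j = (g i - g (j + b)) + (g (j + b) - g j) := by abel
  rw [this]
  exact (H ⊔ K).add_mem (AddSubgroup.mem_sup_left h1) (AddSubgroup.mem_sup_right h2)

lemma blk_closure {T : Set A} (hT : SSet G T) : IsBlkH G (AddSubgroup.closure T) := by
  intro g hg i j h
  have key : ∀ x ∈ AddSubgroup.closure T, ∀ i j : A, i - j = x →
      g i - g j ∈ AddSubgroup.closure T := by
    intro x hx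
    induction hx using AddSubgroup.closure_induction with
    | mem x hx =>
      intro i j hij
      exact AddSubgroup.subset_closure ((hT.inv' hg i j).mpr (hij ▸ hx))
    | zero =>
      intro i j hij
      rw [sub_eq_zero] at hij
      rw [hij, sub_self]; exact AddSubgroup.zero_mem _
    | add x y _ _ ihx ihy =>
      intro i j hij
      have h1 := ihx i (j + y) (by rw [sub_eq_iff_eq_add] at hij ⊢; rw [hij]; abel)
      have h2 := ihy (j + y) j (by abel)
      have : g i - g j = (g i - g (j + y)) + (g (j + y) - g j) := by abel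
      rw [this]; exact AddSubgroup.add_mem _ h1 h2
    | neg x _ ih =>
      intro i j hij
      have h1 := ih j i (by rw [← neg_sub, hij, neg_neg])
      rw [← neg_sub]; exact AddSubgroup.neg_mem _ h1
  exact key _ h i j rfl

/-- the radical of a set -/
def rad (T : Set A) : AddSubgroup A where
  carrier := {c | ∀ x, x + c ∈ T ↔ x ∈ T}
  zero_mem' := fun x => by rw [add_zero]
  add_mem' := fun {a b} ha hb x => by rw [← add_assoc, hb, ha]
  neg_mem' := fun {a} ha x => by
    have := ha (x + -a)
    rw [neg_add_cancel_right] at this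
    exact this.symm

lemma blk_rad {T : Set A} (hT : SSet G T) : IsBlkH G (rad T) := by
  intro g hg i j h x
  set k := g⁻¹ (x + g i) with hk
  have hgk : g k = x + g i := by simp [hk]
  have e1 : x + (g i - g j) = g k - g j := by rw [hgk]; abel
  have e2 : x = g k - g i := by rw [hgk]; abel
  have h3 := h (k - i)
  rw [show k - i + (i - j) = k - j by abel] at h3
  rw [e1, hT.inv' hg, h3]
  conv_rhs => rw [e2, hT.inv' hg]

/-- the sum of an `S`-set and a block -/
def addK (T : Set A) (K : AddSubgroup A) : Set A := {x | ∃ k ∈ K, x - k ∈ T}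

lemma sset_addK [Finite A] {T : Set A} (hT : SSet G T) {K : AddSubgroup A} (hK : IsBlkH G K) :
    SSet G (addK T K) := by
  refine SSet.mk' (fun g hg i j h => ?_) (fun u hu x hx => ?_)
  · obtain ⟨k, hk, hx⟩ := h
    refine ⟨g (j + k) - g j, hK g hg _ _ (by simpa using hk), ?_⟩
    have : g i - g j - (g (j + k) - g j) = g i - g (j + k) := by abel
    rw [this, hT.inv' hg]
    rwa [← sub_sub]
  · obtain ⟨k, hk, hx⟩ := hx
    refine ⟨u • k, K.nsmul_mem hk u, ?_⟩
    rw [← smul_sub, hT.rat' hu]
    exact hx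

/-- orders in the subgroup generated by a root are prime to `q` -/
lemma closure_root [Finite A] {q : ℕ} (hq : q.Prime) {c : A} {T : Set A} {x : A}
    (hx : x ∈ AddSubgroup.closure (root q c T)) : ¬ q ∣ addOrderOf x := by
  have hpos : Nat.card A ≠ 0 := Nat.card_pos.ne'
  set m := ordCompl[q] (Nat.card A) with hm
  have hqm : ¬ q ∣ m := Nat.not_dvd_ordCompl hq hpos
  have hle : AddSubgroup.closure (root q c T) ≤ (nsmulAddMonoidHom (α := A) m).ker := by
    rw [AddSubgroup.closure_le]
    intro y hy
    have hy1 : ¬ q ∣ addOrderOf y := hy.1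
    have h1 : addOrderOf y ∣ Nat.card A := addOrderOf_dvd_natCard y
    have h2 : addOrderOf y ∣ m := by
      have h3 : Nat.card A = q ^ (Nat.card A).factorization q * m :=
        (Nat.ordProj_mul_ordCompl_eq_self _ _).symm
      rw [h3] at h1
      refine Nat.Coprime.dvd_of_dvd_mul_left ?_ h1
      exact (Nat.Coprime.pow_left _ ((Nat.Prime.coprime_iff_not_dvd hq).mpr hy1)).symm
    change m • y = 0
    exact addOrderOf_dvd_iff_nsmul_eq_zero.mp h2
  have h4 : m • x = 0 := hle hx
  intro h
  exact hqm (h.trans (addOrderOf_dvd_iff_nsmul_eq_zero.mpr h4))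

/-- convolution counts are invariant -/
lemma sfun_count [Finite A] [Fintype A] [DecidableEq A] {T U : Set A} [DecidablePred (· ∈ T)]
    [DecidablePred (· ∈ U)] (hT : SSet G T) (hU : SSet G U) :
    SFun G (fun c => (Finset.univ.filter (fun x => x ∈ T ∧ c - x ∈ U)).card) := by
  have hind : ∀ V : Set A, [DecidablePred (· ∈ V)] → SSet G V →
      ∃ f : AddMonoidAlgebra ℕ A, (∀ x, f.coeff x = if x ∈ V then 1 else 0) ∧ SFun G f.coeff := by
    intro V _ hV
    let f : AddMonoidAlgebra ℕ A := ∑ t ∈ Finset.univ.filter (fun t => t ∈ V), single t 1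
    have hfc : ∀ x : A, f.coeff x = if x ∈ V then 1 else 0 := by
      intro x
      simp only [f, AddMonoidAlgebra.coeff_sum, AddMonoidAlgebra.coeff_single,
        Finsupp.finsetSum_apply,
        Finsupp.single_apply, Finset.sum_ite_eq', Finset.mem_filter, Finset.mem_univ, true_and]
    refine ⟨f, hfc, ?_⟩
    classical
    have h1 : SFun G (fun x : A => if x ∈ V then (1 : ℕ) else 0) := by
      have := SFun.comp (w := fun x => x ∈ V) hV (fun p : Prop => if p then (1 : ℕ) else 0)
      convert this
    have h2 : (f.coeff : A → ℕ) = (fun x : A => if x ∈ V then (1 : ℕ) else 0) := funext hfc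
    rw [h2]; exact h1
  obtain ⟨f, hf, hf'⟩ := hind T hT
  obtain ⟨f', hff, hff'⟩ := hind U hU
  have h := hf'.mul hff'
  have h3 : ((f * f').coeff : A → ℕ) =
      (fun c => (Finset.univ.filter (fun x => x ∈ T ∧ c - x ∈ U)).card) := by
    funext c
    rw [AddMonoidAlgebra.coeff_mul_apply_left, Finsupp.sum_fintype _ _ (by simp)]
    rw [Finset.card_filter]
    refine Finset.sum_congr rfl (fun x _ => ?_)
    rw [hf, hff, neg_add_eq_sub]
    by_cases h1 : x ∈ T <;> by_cases h2 : c - x ∈ U <;> simp [h1, h2]
  rw [← h3]; exact h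

/-- The primitive case. -/
lemma prim [Finite A] [IsAddCyclic A] (hprim : ∀ H : AddSubgroup A, IsBlkH G H → H = ⊥ ∨ H = ⊤)
    {a b : A} (ha : a ≠ 0) (hb : b ≠ 0) : Eqv G a b := by
  classical
  have := Fintype.ofFinite A
  have hnt : Nontrivial A := ⟨⟨a, 0, ha⟩⟩
  have hcard : Nat.card A ≠ 1 := Finite.one_lt_card.ne'
  obtain ⟨p, hp, hpd⟩ := Nat.exists_prime_and_dvd hcard
  have hpf : Fact p.Prime := ⟨hp⟩
  obtain ⟨c, hc⟩ := exists_prime_addOrderOf_dvd_card' p hpd
  have hc0 : c ≠ 0 := by
    rintro rfl
    rw [addOrderOf_zero] at hc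
    exact hp.one_lt.ne hc
  set T := Bas G c with hTdef
  have hT : SSet G T := bas_sset c
  have hcT : c ∈ T := mem_bas_self c
  have h0T : (0 : A) ∉ T := by
    intro h
    have := of_mem_bas (blk_sset (blk_bot (G := G) (A := A))) h (AddSubgroup.zero_mem _)
    exact hc0 (by simpa using this)
  have hroot : ∀ z : A, z ≠ 0 → z ∉ root p c T := by
    intro z hz hzr
    rcases hprim _ (blk_closure (hT.root hp hc)) with h | h
    · have := AddSubgroup.subset_closure hzr
      rw [h] at this
      exact hz (by simpa using this)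
    · have hcm : c ∈ AddSubgroup.closure (root p c T) := by rw [h]; trivial
      exact closure_root hp hcm (by rw [hc])
  have key : ∀ x ∈ T, x ≠ c → c - x ∈ T := by
    intro x hx hxc
    rw [← neg_sub, hT.neg_mem]
    by_cases hpx : p • x = 0
    · have h1 : addOrderOf (x - c) = p := by
        apply addOrderOf_eq_prime
        · rw [smul_sub, hpx, ← hc, addOrderOf_nsmul_eq_zero, sub_zero]
        · rwa [Ne, sub_eq_zero]
      exact (hT.order (h1.trans hc.symm)).mpr hcT
    · have hz := hroot _ hpx
      refine (fiber hp hc hT hz rfl ?_).mp hx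
      rw [smul_sub]
      nth_rewrite 2 [← hc]
      rw [addOrderOf_nsmul_eq_zero, sub_zero]
  have hN := sfun_count hT hT
  have hNc : (Finset.univ.filter (fun x => x ∈ T ∧ c - x ∈ T)) =
      (Finset.univ.filter (fun x => x ∈ T)).erase c := by
    ext x
    simp only [Finset.mem_filter, Finset.mem_univ, true_and, Finset.mem_erase]
    constructor
    · rintro ⟨h1, h2⟩
      refine ⟨?_, h1⟩
      rintro rfl
      rw [sub_self] at h2
      exact h0T h2
    · rintro ⟨h1, h2⟩
      exact ⟨h2, key x h2 h1⟩
  have hsub : ∀ t ∈ T, ∀ x ∈ T, x ≠ t → t - x ∈ T := by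
    intro t ht x hx hxt
    have hlev := hN.sset (fun n => n = (Finset.univ.filter (fun x => x ∈ T ∧ c - x ∈ T)).card)
    have ht' := ht _ hlev (by simp)
    simp only [Set.mem_ofPred_eq] at ht'
    have hss : (Finset.univ.filter (fun x => x ∈ T ∧ t - x ∈ T)) ⊆
        (Finset.univ.filter (fun x => x ∈ T)).erase t := by
      intro y hy
      simp only [Finset.mem_filter, Finset.mem_univ, true_and, Finset.mem_erase] at hy ⊢
      refine ⟨?_, hy.1⟩
      rintro rfl
      rw [sub_self] at hy
      exact h0T hy.2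
    have hce : ((Finset.univ.filter (fun x => x ∈ T)).erase t).card =
        ((Finset.univ.filter (fun x => x ∈ T)).erase c).card := by
      rw [Finset.card_erase_of_mem (by simp [ht]), Finset.card_erase_of_mem (by simp [hcT])]
    have heq := Finset.eq_of_subset_of_card_le hss (by rw [hce, ← hNc, ht'])
    have hxm : x ∈ (Finset.univ.filter (fun x => x ∈ T)).erase t := by
      simp [hx, hxt]
    rw [← heq] at hxm
    simp only [Finset.mem_filter] at hxm
    exact hxm.2.2
  let H : AddSubgroup A := AddSubgroup.ofSub (T ∪ {0}) ⟨0, by simp⟩ (by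
    intro x hx y hy
    rw [← sub_eq_add_neg]
    rcases hx with hx | hx
    · rcases hy with hy | hy
      · by_cases hxy : y = x
        · right; rw [hxy, sub_self]; rfl
        · left; exact hsub x hx y hy hxy
      · left
        rw [Set.mem_singleton_iff] at hy
        rw [hy, sub_zero]; exact hx
    · rw [Set.mem_singleton_iff] at hx
      rcases hy with hy | hy
      · left; rw [hx, zero_sub, hT.neg_mem]; exact hy
      · rw [Set.mem_singleton_iff] at hy
        right; rw [hx, hy, sub_self]; rfl)
  have hHT : ∀ x, x ∈ H ↔ x ∈ T ∨ x = 0 := fun x => Iff.rfl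
  have hH : IsBlkH G H := by
    intro g hg i j h
    rw [hHT] at h ⊢
    rcases h with h | h
    · left; exact (hT.inv' hg i j).mpr h
    · right
      rw [sub_eq_zero] at h ⊢
      rw [h]
  have hHtop : H = ⊤ := by
    rcases hprim H hH with h | h
    · exfalso
      have : c ∈ H := (hHT c).mpr (Or.inl hcT)
      rw [h] at this
      exact hc0 (by simpa using this)
    · exact h
  have hall : ∀ x : A, x ≠ 0 → Eqv G c x := by
    intro x hx
    have : x ∈ H := by rw [hHtop]; trivial
    rcases (hHT x).mp this with h | h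
    · exact h
    · exact absurd h hx
  exact (hall a ha).symm.trans (hall b hb)

end SR
end PCF
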