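import Pool.Agent.Work.MP_80ff4e_al_helper60.S1c

/-! # Block S1, part d: restriction to a block and quotient by a block -/

set_option autoImplicit false

namespace PCF
namespace SR

variable {A : Type} [AddCommGroup A] {G : Subgroup (Equiv.Perm A)}

/-- `G` is closed under `g ↦ (x ↦ g (x + j) - g j)`. -/
def TCl (G : Subgroup (Equiv.Perm A)) : Prop :=
  ∀ g ∈ G, ∀ j : A, Equiv.addRight (-(g j)) * g * Equiv.addRight j ∈ G

lemma tcl_of_trans (h : ∀ c : A, Equiv.addRight c ∈ G) : TCl G :=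
  fun _ hg _ => G.mul_mem (G.mul_mem (h _) hg) (h _)

/-- the restriction of `G` to a subgroup -/
def resG (G : Subgroup (Equiv.Perm A)) (H : AddSubgroup A) : Subgroup (Equiv.Perm H) where
  carrier := {σ | ∃ g ∈ G, ∀ x : H, (g (x : A) : A) = σ x}
  one_mem' := ⟨1, G.one_mem, fun x => rfl⟩
  mul_mem' := by
    rintro σ τ ⟨g, hg, h1⟩ ⟨g', hg', h2⟩
    refine ⟨g * g', G.mul_mem hg hg', fun x => ?_⟩
    rw [Equiv.Perm.mul_apply, Equiv.Perm.mul_apply, h2, h1]
  inv_mem' := by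
    rintro σ ⟨g, hg, h1⟩
    refine ⟨g⁻¹, G.inv_mem hg, fun x => ?_⟩
    rw [Equiv.Perm.inv_eq_iff_eq, h1]
    simp

lemma mem_resG {H : AddSubgroup A} {σ : Equiv.Perm H} :
    σ ∈ resG G H ↔ ∃ g ∈ G, ∀ x : H, (g (x : A) : A) = σ x := Iff.rfl

lemma exists_res [Finite A] (hG : TCl G) {H : AddSubgroup A} (hH : IsBlkH G H)
    {g : Equiv.Perm A} (hg : g ∈ G) (j : A) :
    ∃ σ ∈ resG G H, ∀ x : H, (σ x : A) = g (x + j) - g j := by
  have hmem : ∀ x : H, g ((x : A) + j) - g j ∈ H := fun x => hH g hg _ _ (by simp)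
  let f : H → H := fun x => ⟨g ((x : A) + j) - g j, hmem x⟩
  have hf : Function.Injective f := by
    intro x y hxy
    have h1 := congrArg Subtype.val hxy
    simp only [f, sub_left_inj, EmbeddingLike.apply_eq_iff_eq, add_left_inj] at h1
    exact Subtype.ext h1
  refine ⟨Equiv.ofBijective f (Finite.injective_iff_bijective.mp hf), ?_, fun x => rfl⟩
  refine ⟨_, hG g hg j, fun _ => ?_⟩
  simp only [Equiv.Perm.mul_apply, Equiv.coe_addRight, Equiv.ofBijective_apply, f]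
  rw [sub_eq_add_neg]

lemma res_trans {H : AddSubgroup A} (h : ∀ c ∈ H, Equiv.addRight c ∈ G) (c : H) :
    Equiv.addRight c ∈ resG G H :=
  ⟨Equiv.addRight (c : A), h _ c.2, fun x => rfl⟩

lemma res_sset [Finite A] [IsAddCyclic A] {H : AddSubgroup A} {T : Set A} (hT : SSet G T) :
    SSet (resG G H) {x : H | (x : A) ∈ T} := by
  refine ⟨?_, fun u hu x => ?_⟩
  · rintro σ ⟨g, hg, h1⟩ i j
    simp only [Set.mem_ofPred_eq, AddSubgroup.coe_sub, ← h1, eq_iff_iff]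
    exact hT.inv' hg _ _
  · have h2 : addOrderOf ((u • x : H) : A) = addOrderOf (x : A) := by
      rw [AddSubgroup.addOrderOf_coe, AddSubgroup.addOrderOf_coe]
      have hc : (addOrderOf x).Coprime u :=
        (Nat.Coprime.coprime_dvd_right (addOrderOf_dvd_natCard x) hu).symm
      exact Nat.Coprime.addOrderOf_nsmul hc
    simp only [Set.mem_ofPred_eq, eq_iff_iff]
    exact hT.order h2

lemma res_blk [Finite A] (hG : TCl G) {H : AddSubgroup A} (hH : IsBlkH G H)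
    {H' : AddSubgroup H} (hH' : IsBlkH (resG G H) H') : IsBlkH G (H'.map H.subtype) := by
  intro g hg i j hij
  obtain ⟨x, hx, hxij⟩ := hij
  obtain ⟨σ, hσ, h1⟩ := exists_res hG hH hg j
  have h2 := hH' σ hσ x 0 (by simpa using hx)
  refine ⟨_, h2, ?_⟩
  simp only [AddSubgroup.subtype_apply, AddSubgroup.coe_sub, h1, AddSubgroup.coe_zero, zero_add,
    sub_self, sub_zero]
  have h3 : (x : A) = i - j := hxij
  rw [h3, sub_add_cancel]

lemma res_eqv [Finite A] [IsAddCyclic A] {H : AddSubgroup A} {a b : H}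
    (h : Eqv (resG G H) a b) : Eqv G (a : A) (b : A) :=
  fun _ hT ha => h _ (res_sset hT) ha

/-! ### quotient -/

/-- the group induced on the quotient -/
def quoG (G : Subgroup (Equiv.Perm A)) (K : AddSubgroup A) : Subgroup (Equiv.Perm (A ⧸ K)) where
  carrier := {σ | ∃ g ∈ G, ∀ x : A, σ (QuotientAddGroup.mk x) = QuotientAddGroup.mk (g x)}
  one_mem' := ⟨1, G.one_mem, fun x => rfl⟩
  mul_mem' := by
    rintro σ τ ⟨g, hg, h1⟩ ⟨g', hg', h2⟩
    refine ⟨g * g', G.mul_mem hg hg', fun x => ?_⟩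
    rw [Equiv.Perm.mul_apply, Equiv.Perm.mul_apply, h2, h1]
  inv_mem' := by
    rintro σ ⟨g, hg, h1⟩
    refine ⟨g⁻¹, G.inv_mem hg, fun x => ?_⟩
    rw [Equiv.Perm.inv_eq_iff_eq, h1]
    simp

lemma exists_quo {K : AddSubgroup A} (hK : IsBlkH G K) {g : Equiv.Perm A} (hg : g ∈ G) :
    ∃ σ ∈ quoG G K, ∀ x : A, σ (QuotientAddGroup.mk x) = QuotientAddGroup.mk (g x) := by
  have hw : ∀ g ∈ G, ∀ x y : A, (QuotientAddGroup.mk x : A ⧸ K) = QuotientAddGroup.mk y →
      (QuotientAddGroup.mk (g x) : A ⧸ K) = QuotientAddGroup.mk (g y) := by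
    intro g hg x y hxy
    rw [QuotientAddGroup.eq] at hxy ⊢
    rw [neg_add_eq_sub] at hxy ⊢
    exact hK g hg _ _ hxy
  let f : (g : Equiv.Perm A) → g ∈ G → A ⧸ K → A ⧸ K := fun g hg =>
    Quotient.lift (fun x : A => (QuotientAddGroup.mk (g x) : A ⧸ K)) (fun x y hxy =>
      hw g hg x y (Quotient.sound hxy))
  have hf : ∀ g hg x, f g hg (QuotientAddGroup.mk x) = QuotientAddGroup.mk (g x) :=
    fun g hg x => rfl
  let σ : Equiv.Perm (A ⧸ K) :=
    { toFun := f g hg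
      invFun := f g⁻¹ (G.inv_mem hg)
      left_inv := by
        intro x
        obtain ⟨x, rfl⟩ := QuotientAddGroup.mk_surjective x
        rw [hf g hg, hf g⁻¹ (G.inv_mem hg)]; simp
      right_inv := by
        intro x
        obtain ⟨x, rfl⟩ := QuotientAddGroup.mk_surjective x
        rw [hf g⁻¹ (G.inv_mem hg), hf g hg]; simp }
  exact ⟨σ, ⟨g, hg, fun x => rfl⟩, fun x => rfl⟩

lemma quo_trans {K : AddSubgroup A} (h : ∀ c : A, Equiv.addRight c ∈ G) (c : A ⧸ K) :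
    Equiv.addRight c ∈ quoG G K := by
  obtain ⟨c, rfl⟩ := QuotientAddGroup.mk_surjective c
  exact ⟨Equiv.addRight c, h c, fun x => rfl⟩

lemma quo_comap {K : AddSubgroup A} (hK : IsBlkH G K) {H : AddSubgroup (A ⧸ K)}
    (hH : IsBlkH (quoG G K) H) : IsBlkH G (H.comap (QuotientAddGroup.mk' K)) := by
  intro g hg i j hij
  obtain ⟨σ, hσ, h1⟩ := exists_quo hK hg
  rw [AddSubgroup.mem_comap, map_sub] at hij ⊢
  have := hH σ hσ _ _ hij
  simp only [QuotientAddGroup.mk'_apply] at this ⊢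
  rwa [h1, h1] at this

lemma lift_coprime {N n u : ℕ} (hN : N ≠ 0) (hn : n ∣ N) (hu : u.Coprime n) :
    ∃ u' : ℕ, u'.Coprime N ∧ u' ≡ u [MOD n] := by
  have : NeZero N := ⟨hN⟩
  have : NeZero n := ⟨fun h => hN (by rw [h] at hn; exact zero_dvd_iff.mp hn)⟩
  obtain ⟨v, hv⟩ := ZMod.unitsMap_surjective hn (ZMod.unitOfCoprime u hu)
  refine ⟨(v : ZMod N).val, ZMod.val_coe_unit_coprime v, ?_⟩
  rw [← ZMod.natCast_eq_natCast_iff]
  have h6 := congrArg (fun z : (ZMod n)ˣ => (z : ZMod n)) hv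
  simp only [ZMod.unitsMap_def, Units.coe_map, ZMod.coe_unitOfCoprime] at h6
  rw [← h6]
  simp [ZMod.natCast_val]

lemma card_quo_dvd [Finite A] (K : AddSubgroup A) : Nat.card (A ⧸ K) ∣ Nat.card A :=
  ⟨_, AddSubgroup.card_eq_card_quotient_mul_card_addSubgroup K⟩

lemma quo_image [Finite A] {K : AddSubgroup A} (_hK : IsBlkH G K) {T : Set A}
    (hT : SSet G T) : SSet (quoG G K) {y | ∃ x ∈ T, QuotientAddGroup.mk x = y} := by
  refine SSet.mk' ?_ ?_
  · rintro σ ⟨g, hg, h1⟩ i j ⟨x, hx, hxij⟩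
    obtain ⟨i, rfl⟩ := QuotientAddGroup.mk_surjective i
    obtain ⟨j, rfl⟩ := QuotientAddGroup.mk_surjective j
    have h2 : (QuotientAddGroup.mk (i - x) : A ⧸ K) = QuotientAddGroup.mk j := by
      rw [QuotientAddGroup.mk_sub, hxij]; abel
    refine ⟨g i - g (i - x), ?_, ?_⟩
    · rw [hT.inv' hg]
      rwa [sub_sub_cancel]
    · rw [QuotientAddGroup.mk_sub, ← h1, ← h1, h2]
  · rintro u hu y ⟨x, hx, rfl⟩
    obtain ⟨u', hu', hmod⟩ := lift_coprime Nat.card_pos.ne' (card_quo_dvd K) hu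
    refine ⟨u' • x, (hT.rat' hu' x).mpr hx, ?_⟩
    have h1 : (QuotientAddGroup.mk (u' • x) : A ⧸ K) = u' • QuotientAddGroup.mk x := by
      exact map_nsmul (QuotientAddGroup.mk' K) u' x
    rw [h1]
    rw [nsmul_eq_nsmul_iff_modEq]
    exact hmod.of_dvd (addOrderOf_dvd_natCard _)

lemma quo_preimage [Finite A] {K : AddSubgroup A} (hK : IsBlkH G K) {V : Set (A ⧸ K)}
    (hV : SSet (quoG G K) V) : SSet G {x | (QuotientAddGroup.mk x : A ⧸ K) ∈ V} := by
  refine ⟨fun g hg i j => ?_, fun u hu x => ?_⟩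
  · obtain ⟨σ, hσ, h1⟩ := exists_quo hK hg
    simp only [Set.mem_ofPred_eq, QuotientAddGroup.mk_sub, ← h1, eq_iff_iff]
    exact hV.inv' hσ _ _
  · have h1 : (QuotientAddGroup.mk (u • x) : A ⧸ K) = u • QuotientAddGroup.mk x := by
      exact map_nsmul (QuotientAddGroup.mk' K) u x
    simp only [Set.mem_ofPred_eq, h1, eq_iff_iff]
    exact hV.rat' (Nat.Coprime.coprime_dvd_right (card_quo_dvd K) hu) _

end SR
end PCF
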