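import Pool.Agent.Work.MP_80ff4e_al_helper60.S1d

/-! # Block S1, part e: the direct sum step, the main induction, `stmt_S1` -/

set_option autoImplicit false

namespace PCF
namespace SR

variable {A : Type} [AddCommGroup A] {G : Subgroup (Equiv.Perm A)}

/-- The elements of `G` that fix all cosets of `K`. -/
def fixG (G : Subgroup (Equiv.Perm A)) (K : AddSubgroup A) : Subgroup (Equiv.Perm A) where
  carrier := {g | g ∈ G ∧ ∀ x, g x - x ∈ K}
  one_mem' := ⟨G.one_mem, fun x => by simp⟩
  mul_mem' := by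
    rintro g g' ⟨h1, h2⟩ ⟨h3, h4⟩
    refine ⟨G.mul_mem h1 h3, fun x => ?_⟩
    have : (g * g') x - x = (g (g' x) - g' x) + (g' x - x) := by
      rw [Equiv.Perm.mul_apply]; abel
    rw [this]
    exact K.add_mem (h2 _) (h4 _)
  inv_mem' := by
    rintro g ⟨h1, h2⟩
    refine ⟨G.inv_mem h1, fun x => ?_⟩
    have := h2 (g⁻¹ x)
    have h3 : g (g⁻¹ x) = x := by simp
    rw [h3] at this
    rw [← neg_sub]
    exact K.neg_mem this

lemma tcl_fixG (hG : TCl G) (K : AddSubgroup A) : TCl (fixG G K) := by
  rintro g ⟨h1, h2⟩ j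
  refine ⟨hG g h1 j, fun x => ?_⟩
  have : (Equiv.addRight (-(g j)) * g * Equiv.addRight j) x - x =
      (g (x + j) - (x + j)) - (g j - j) := by
    simp only [Equiv.Perm.mul_apply, Equiv.coe_addRight]
    abel
  rw [this]
  exact K.sub_mem (h2 _) (h2 _)

lemma blk_fixG {H K : AddSubgroup A} (hH : IsBlkH G H) : IsBlkH (fixG G K) H :=
  fun g hg i j h => hH g hg.1 i j h

/-- blocks of `fixG G K` inside `K` are blocks of `G` -/
lemma blk_of_fixG [Finite A] [IsAddCyclic A] (hG : ∀ c : A, Equiv.addRight c ∈ G)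
    {J K : AddSubgroup A} (hJ : IsBlkH G J) (hK : IsBlkH G K) (hJK : J ⊓ K = ⊥)
    (hJK' : J ⊔ K = ⊤) {K' : AddSubgroup A} (hK' : K' ≤ K) (hb : IsBlkH (fixG G K) K') :
    IsBlkH G K' := by
  intro g hg
  -- the relation is translation invariant
  have htK : ∀ c ∈ K, ∀ i j : A, g i - g j ∈ K' → g (i + c) - g (j + c) ∈ K' := by
    intro c hc i j hij
    have hmem : g * Equiv.addRight c * g⁻¹ ∈ fixG G K := by
      refine ⟨G.mul_mem (G.mul_mem hg (hG c)) (G.inv_mem hg), fun x => ?_⟩
      have h1 := hK g hg (g⁻¹ x + c) (g⁻¹ x) (by simpa using hc)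
      simpa using h1
    have h2 := hb _ hmem (g i) (g j) hij
    simpa using h2
  have htJ : ∀ c ∈ J, ∀ i j : A, g i - g j ∈ K' → g (i + c) - g (j + c) ∈ K' := by
    intro c hc i j hij
    have h1 : i - j ∈ K := by
      have := hK g⁻¹ (G.inv_mem hg) _ _ (hK' hij)
      simpa using this
    have h2 : g (i + c) - g (j + c) ∈ K := hK g hg _ _ (by simpa using h1)
    have h3 : g (i + c) - g i ∈ J := hJ g hg _ _ (by simpa using hc)
    have h4 : g (j + c) - g j ∈ J := hJ g hg _ _ (by simpa using hc)
    have h5 : (g (i + c) - g (j + c)) - (g i - g j) ∈ J ⊓ K := by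
      refine ⟨?_, K.sub_mem h2 (hK' hij)⟩
      have : (g (i + c) - g (j + c)) - (g i - g j) = (g (i + c) - g i) - (g (j + c) - g j) := by
        abel
      rw [this]
      exact J.sub_mem h3 h4
    rw [hJK, AddSubgroup.mem_bot, sub_eq_zero] at h5
    rw [h5]; exact hij
  have ht : ∀ c i j : A, g i - g j ∈ K' → g (i + c) - g (j + c) ∈ K' := by
    intro c i j hij
    have hc : c ∈ J ⊔ K := by rw [hJK']; trivial
    obtain ⟨x, hx, y, hy, rfl⟩ := AddSubgroup.mem_sup.mp hc
    rw [← add_assoc, ← add_assoc]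
    exact htK y hy _ _ (htJ x hx _ _ hij)
  let B : AddSubgroup A :=
    { carrier := {c | g c - g 0 ∈ K'}
      zero_mem' := by simp
      add_mem' := by
        intro a b ha hb
        simp only [Set.mem_ofPred_eq] at ha hb ⊢
        have h1 := ht b a 0 ha
        rw [zero_add] at h1
        have : g (a + b) - g 0 = (g (a + b) - g b) + (g b - g 0) := by abel
        rw [this]
        exact K'.add_mem h1 hb
      neg_mem' := by
        intro a ha
        simp only [Set.mem_ofPred_eq] at ha ⊢
        have h1 := ht (-a) a 0 ha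
        rw [add_neg_cancel, zero_add] at h1
        rw [← neg_sub]
        exact K'.neg_mem h1 }
  have hB : ∀ c, c ∈ B ↔ g c - g 0 ∈ K' := fun c => Iff.rfl
  have hcard : Nat.card B = Nat.card K' := by
    refine Nat.card_congr ⟨fun c => ⟨g c - g 0, c.2⟩, fun k => ⟨g⁻¹ (k + g 0), ?_⟩, ?_, ?_⟩
    · rw [hB]; simp
    · intro c; simp
    · intro k; simp
  have hBK : B = K' := by
    apply SetLike.coe_injective
    classical
    have := Fintype.ofFinite A
    have hsub : ∀ (P : AddSubgroup A), (P : Set A) ⊆ {x : A | Nat.card P • x = 0} := by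
      intro P x hx
      simp only [Set.mem_ofPred_eq]
      have h1 : Nat.card P • (⟨x, hx⟩ : P) = 0 := by
        exact card_nsmul_eq_zero'
      exact congrArg Subtype.val h1
    have hle : ∀ n : ℕ, 0 < n → {x : A | n • x = 0}.ncard ≤ n := by
      intro n hn
      have h1 := IsAddCyclic.card_nsmul_eq_zero_le (α := A) (n := n) hn
      rw [Set.ncard_eq_toFinset_card']
      convert h1 using 2
      ext x; simp
    have heq : ∀ (P : AddSubgroup A), (P : Set A) = {x : A | Nat.card P • x = 0} := by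
      intro P
      apply Set.eq_of_subset_of_ncard_le (hsub P)
      · refine (hle _ Nat.card_pos).trans ?_
        exact le_of_eq (Nat.card_coe_set_eq (P : Set A))
    rw [heq B, heq K', hcard]
  intro i j hij
  have h1 : i - j ∈ B := by rw [hBK]; exact hij
  rw [hB] at h1
  have h2 := ht j _ _ h1
  rw [sub_add_cancel, zero_add] at h2
  exact h2

/-- The direct sum step. -/
lemma eqv_of_sum [Finite A] [IsAddCyclic A] (hG : ∀ c : A, Equiv.addRight c ∈ G)
    {J K : AddSubgroup A} (hJ : IsBlkH G J) (hK : IsBlkH G K) (hJK : J ⊓ K = ⊥)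
    (hJK' : J ⊔ K = ⊤) (hcop : (Nat.card J).Coprime (Nat.card K))
    (hmin : ∀ H : AddSubgroup A, IsBlkH G H → H ≤ K → H = ⊥ ∨ H = K)
    {j a b : A} (hj : j ∈ J) (ha : a ∈ K) (hb : b ∈ K) (ha0 : a ≠ 0) (hb0 : b ≠ 0) :
    Eqv G (j + a) (j + b) := by
  intro T hT haT
  -- the elements of `fixG` commute with translations by elements of `J`
  have hcomm : ∀ g ∈ fixG G K, ∀ x : A, g (x + j) = g x + j := by
    rintro g ⟨hg, hgK⟩ x
    have h1 : g (x + j) - g x - j ∈ J ⊓ K := by
      refine ⟨J.sub_mem (hJ g hg _ _ (by simpa using hj)) hj, ?_⟩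
      have : g (x + j) - g x - j = (g (x + j) - (x + j)) - (g x - x) := by abel
      rw [this]
      exact K.sub_mem (hgK _) (hgK _)
    rw [hJK, AddSubgroup.mem_bot, sub_sub, sub_eq_zero] at h1
    exact h1
  have hTj : SSet (resG (fixG G K) K) {k : K | j + (k : A) ∈ T} := by
    refine ⟨?_, fun u hu x => ?_⟩
    · rintro σ ⟨g, hg, h1⟩ x y
      simp only [Set.mem_ofPred_eq, AddSubgroup.coe_sub, ← h1, eq_iff_iff]
      have h2 : j + (g (x : A) - g y) = g ((x : A) + j) - g y := by
        rw [hcomm g hg]; abel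
      rw [h2, hT.inv' hg.1]
      have : (x : A) + j - y = j + (x - y) := by abel
      rw [this]
    · simp only [Set.mem_ofPred_eq, eq_iff_iff]
      apply hT.order
      have key : ∀ k : K, addOrderOf (j + (k : A)) = addOrderOf j * addOrderOf k := by
        intro k
        have h1 : (addOrderOf j).Coprime (addOrderOf (k : A)) := by
          rw [AddSubgroup.addOrderOf_coe]
          have h2 : addOrderOf j = addOrderOf (⟨j, hj⟩ : J) := by
            rw [← AddSubgroup.addOrderOf_coe]
          rw [h2]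
          exact Nat.Coprime.of_dvd (addOrderOf_dvd_natCard _) (addOrderOf_dvd_natCard _) hcop
        rw [AddCommute.addOrderOf_add_eq_mul_addOrderOf_of_coprime (AddCommute.all _ _) h1,
          AddSubgroup.addOrderOf_coe]
      rw [key, key]
      have hc : (addOrderOf x).Coprime u :=
        (Nat.Coprime.coprime_dvd_right (addOrderOf_dvd_natCard x) hu).symm
      rw [Nat.Coprime.addOrderOf_nsmul hc]
  have htcl : TCl (fixG G K) := tcl_fixG (tcl_of_trans hG) K
  have hprim : ∀ H : AddSubgroup K, IsBlkH (resG (fixG G K) K) H → H = ⊥ ∨ H = ⊤ := by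
    intro H hH
    have h1 := res_blk htcl (blk_fixG hK) hH
    have hle : H.map K.subtype ≤ K := by
      rintro x ⟨y, _, rfl⟩
      exact y.2
    have h2 := blk_of_fixG hG hJ hK hJK hJK' hle h1
    rcases hmin _ h2 hle with h | h
    · left
      rw [AddSubgroup.eq_bot_iff_forall]
      intro x hx
      have h3 : (x : A) ∈ H.map K.subtype := ⟨x, hx, rfl⟩
      rw [h, AddSubgroup.mem_bot] at h3
      exact Subtype.ext h3
    · right
      rw [AddSubgroup.eq_top_iff']
      intro x
      have h3 : (x : A) ∈ H.map K.subtype := by rw [h]; exact x.2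
      obtain ⟨y, hy, hyx⟩ := h3
      have : y = x := Subtype.ext hyx
      rwa [← this]
  have h1 : Eqv (resG (fixG G K) K) (⟨a, ha⟩ : K) (⟨b, hb⟩ : K) := by
    apply prim hprim
    · intro h; exact ha0 (congrArg Subtype.val h)
    · intro h; exact hb0 (congrArg Subtype.val h)
  exact h1 _ hTj haT

end SR
end PCF
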