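import Pool.Agent.Work.MP_80ff4e_al_helper60.S1

/-! # Block S2, part a: rational idempotents are invariant under units -/

set_option autoImplicit false

open AddMonoidAlgebra

namespace PCF
namespace SR

variable {A : Type} [AddCommGroup A]

/-- integral version -/
lemma idem_prime [Fintype A] (q : A → ℤ) (N : ℕ)
    (hq : ∀ i, ∑ k, q k * q (-k + i) = N * q i) {l : ℕ} (hl : l.Prime)
    (hlN : ¬ l ∣ N) (hlA : l.Coprime (Nat.card A)) (b : A) :
    (l : ℤ) ∣ q (l • b) - q b := by
  classical
  have hlf : Fact l.Prime := ⟨hl⟩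
  let y : AddMonoidAlgebra (ZMod l) A := ∑ a : A, single a (q a : ZMod l)
  have hyc : ∀ x : A, y.coeff x = q x := by
    intro x
    simp only [y, AddMonoidAlgebra.coeff_sum, AddMonoidAlgebra.coeff_single,
      Finsupp.finsetSum_apply, Finsupp.single_apply, Finset.sum_ite_eq', Finset.mem_univ, if_true]
  have hy2 : y * y = (N : ZMod l) • y := by
    ext c
    rw [AddMonoidAlgebra.coeff_mul_apply_left, Finsupp.sum_fintype _ _ (by simp)]
    rw [AddMonoidAlgebra.coeff_smul, Finsupp.smul_apply, hyc]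
    simp only [hyc]
    have := congrArg (fun z : ℤ => (z : ZMod l)) (hq c)
    simp only [Int.cast_sum, Int.cast_mul, Int.cast_natCast] at this
    rw [this, smul_eq_mul]
  have hyn : ∀ n : ℕ, y ^ (n + 1) = (N : ZMod l) ^ n • y := by
    intro n
    induction n with
    | zero => simp
    | succ n ih => rw [pow_succ, ih, smul_mul_assoc, hy2, smul_smul, pow_succ]
  have hN : (N : ZMod l) ≠ 0 := by
    rw [Ne, ZMod.natCast_eq_zero_iff]; exact hlN
  have hyl : y ^ l = y := by
    have h1 : (l - 1) + 1 = l := by have := hl.one_lt; omega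
    have h2 := hyn (l - 1)
    rwa [h1, ZMod.pow_card_sub_one_eq_one hN, one_smul] at h2
  have hchar : CharP (AddMonoidAlgebra (ZMod l) A) l :=
    charP_of_injective_algebraMap (algebraMap (ZMod l) (AddMonoidAlgebra (ZMod l) A)).injective l
  have hpow : y ^ l = ∑ a : A, single (l • a) (q a : ZMod l) := by
    simp only [y]
    rw [sum_pow_char]
    refine Finset.sum_congr rfl (fun t _ => ?_)
    rw [AddMonoidAlgebra.single_pow, ZMod.pow_card]
  have hinj : ∀ a b : A, l • a = l • b → a = b := by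
    intro a b hab
    obtain ⟨v, -, hv⟩ := exists_inv_unit (A := A) hlA
    rw [← hv a, ← hv b, hab]
  have hcoef : (y ^ l).coeff (l • b) = q b := by
    rw [hpow]
    simp only [AddMonoidAlgebra.coeff_sum, AddMonoidAlgebra.coeff_single,
      Finsupp.finsetSum_apply, Finsupp.single_apply]
    rw [Finset.sum_eq_single b]
    · simp
    · intro a _ hab
      rw [if_neg]
      intro h
      exact hab (hinj _ _ h)
    · intro h; exact absurd (Finset.mem_univ b) h
  rw [hyl, hyc] at hcoef
  rw [← ZMod.intCast_zmod_eq_zero_iff_dvd]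
  push_cast
  rw [hcoef, sub_self]

lemma idem_unit [Fintype A] (p : A → ℚ) (hp : ∀ i, ∑ k, p k * p (i - k) = p i) :
    ∀ u : ℕ, u.Coprime (Nat.card A) → ∀ x, p (u • x) = p x := by
  classical
  -- common denominator
  set N : ℕ := ∏ a : A, (p a).den with hN
  have hN0 : N ≠ 0 := Finset.prod_ne_zero_iff.mpr (fun a _ => (p a).den_nz)
  have hex : ∀ a, ∃ z : ℤ, (z : ℚ) = N * p a := by
    intro a
    obtain ⟨m, hm⟩ : (p a).den ∣ N := Finset.dvd_prod_of_mem _ (Finset.mem_univ a)
    refine ⟨m * (p a).num, ?_⟩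
    rw [hm]
    push_cast
    have h1 : (p a) * (p a).den = (p a).num := Rat.mul_den_eq_num (p a)
    rw [← h1]; ring
  choose q hq using hex
  have hqq : ∀ i, ∑ k, q k * q (-k + i) = N * q i := by
    intro i
    have h1 : ((∑ k, q k * q (-k + i) : ℤ) : ℚ) = ((N * q i : ℤ) : ℚ) := by
      push_cast
      rw [hq]
      have h2 : ∀ k, (q k : ℚ) * q (-k + i) = N * N * (p k * p (i - k)) := by
        intro k
        rw [hq, hq, neg_add_eq_sub]; ring
      rw [Finset.sum_congr rfl (fun k _ => h2 k), ← Finset.mul_sum, hp]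
      ring
    exact_mod_cast h1
  intro u hu x
  set M : ℕ := N + 2 * ∑ a : A, (q a).natAbs with hM
  obtain ⟨l, hlM, hl, hlu⟩ := Nat.forall_exists_prime_gt_and_modEq M
    (Nat.card_pos (α := A)).ne' hu
  have hlN : ¬ l ∣ N := by
    intro h
    have := Nat.le_of_dvd (Nat.pos_of_ne_zero hN0) h
    omega
  have hlA : l.Coprime (Nat.card A) := by
    rw [Nat.Coprime, hlu.gcd_eq]; exact hu
  have hdvd := idem_prime q N hqq hl hlN hlA x
  have hle : ∀ a, (q a).natAbs ≤ ∑ a : A, (q a).natAbs := fun a =>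
    Finset.single_le_sum (f := fun a => (q a).natAbs) (fun _ _ => Nat.zero_le _)
      (Finset.mem_univ a)
  have h0 : q (l • x) - q x = 0 := by
    apply Int.eq_zero_of_abs_lt_dvd hdvd
    have h1 := hle (l • x)
    have h2 := hle x
    have h5 : |q (l • x) - q x| ≤ |q (l • x)| + |q x| := abs_sub _ _
    rw [Int.abs_eq_natAbs (q (l • x)), Int.abs_eq_natAbs (q x)] at h5
    omega
  have h3 : u • x = l • x := by
    rw [nsmul_eq_nsmul_iff_modEq]
    exact (hlu.of_dvd (addOrderOf_dvd_natCard x)).symm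
  have h4 : (N : ℚ) * p (u • x) = N * p x := by
    rw [h3, ← hq, ← hq]
    have : q (l • x) = q x := by omega
    rw [this]
  have hN' : (N : ℚ) ≠ 0 := by exact_mod_cast hN0
  exact mul_left_cancel₀ hN' h4

end SR
end PCF
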