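import Pool.Agent.Work.MP_80ff4e_al_helper60.S2a

/-! # Block S2, part b: the combinatorial core -/

set_option autoImplicit false

namespace PCF
namespace SR

variable {A : Type} [AddCommGroup A] {G : Subgroup (Equiv.Perm A)}

lemma kill_sup [Finite A] (I : Finset (AddSubgroup A)) {x : A} (hx : x ∈ I.sup id) :
    (∏ K ∈ I, Nat.card K) • x = 0 := by
  have hle : I.sup id ≤ (nsmulAddMonoidHom (α := A) (∏ K ∈ I, Nat.card K)).ker := by
    apply Finset.sup_le
    intro K hK y hy
    obtain ⟨m, hm⟩ : Nat.card K ∣ ∏ K ∈ I, Nat.card K := Finset.dvd_prod_of_mem _ hK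
    change (∏ K ∈ I, Nat.card K) • y = 0
    have h1 : Nat.card K • y = 0 := by
      have h2 : Nat.card K • (⟨y, hy⟩ : K) = 0 := card_nsmul_eq_zero'
      exact congrArg Subtype.val h2
    rw [hm, mul_nsmul, h1, nsmul_zero]
  exact hle hx

lemma blk_finset_sup {I : Finset (AddSubgroup A)} (h : ∀ K ∈ I, IsBlkH G K) :
    IsBlkH G (I.sup id) := by
  apply Finset.sup_induction (p := fun H => IsBlkH G H) blk_bot
    (fun _ h1 _ h2 => blk_sup h1 h2) h

lemma sup_erase [DecidableEq (AddSubgroup A)] {I : Finset (AddSubgroup A)} {K : AddSubgroup A}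
    (hK : K ∈ I) : I.sup id = K ⊔ (I.erase K).sup id := by
  conv_lhs => rw [← Finset.insert_erase hK]
  rw [Finset.sup_insert]; rfl

open Classical in
theorem comb [Finite A] [IsAddCyclic A] {C : Set A} (hC0 : (0 : A) ∈ C)
    (hC : ∀ x ∈ C, ∃ h ∈ G, h 0 = x ∧ ∀ y, h y ∈ C ↔ y ∈ C) :
    ∀ (n : ℕ) (I : Finset (AddSubgroup A)), I.card = n → (∀ K ∈ I, IsBlkH G K) →
      (∀ K ∈ I, ∀ K' ∈ I, K ≠ K' → (Nat.card K).Coprime (Nat.card K')) →
      ∀ F : AddSubgroup A → A → ℚ,
      (∀ K ∈ I, ∀ x ∈ I.sup id, ∀ k ∈ K, F K (x + k) = F K x) →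
      (∀ x ∈ I.sup id, (if x ∈ C then (1 : ℚ) else 0) = ∑ K ∈ I, F K x) →
      ∃ K ∈ I, (K : Set A) ⊆ C := by
  intro n
  induction n with
  | zero =>
    intro I hI _ _ F _ hsum
    rw [Finset.card_eq_zero] at hI
    subst hI
    have := hsum 0 (AddSubgroup.zero_mem _)
    rw [if_pos hC0] at this
    simp at this
  | succ n ih =>
    intro I hI hblk hcop F hF hsum
    by_cases hcase : ∃ K ∈ I, ∃ κ ∈ K, ∀ x ∈ (I.erase K).sup id, κ + x ∉ C
    · obtain ⟨K, hK, κ, hκ, hno⟩ := hcase
      have hsubI : ∀ K' ∈ I.erase K, K' ∈ I := fun K' h => Finset.mem_of_mem_erase h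
      have hle : (I.erase K).sup id ≤ I.sup id := Finset.sup_mono (Finset.erase_subset _ _)
      have hκI : κ ∈ I.sup id := by
        have : K ≤ I.sup id := Finset.le_sup (f := id) hK
        exact this hκ
      obtain ⟨K', hK', hK'C⟩ := ih (I.erase K) (by rw [Finset.card_erase_of_mem hK, hI]; rfl)
        (fun K' h => hblk K' (hsubI K' h))
        (fun K₁ h₁ K₂ h₂ => hcop K₁ (hsubI _ h₁) K₂ (hsubI _ h₂))
        (fun K' x => F K' x - F K' (x + κ))
        (by
          intro K' hK' x hx k hk
          have h1 := hF K' (hsubI _ hK') x (hle hx) k hk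
          have h2 := hF K' (hsubI _ hK') (x + κ) (AddSubgroup.add_mem _ (hle hx) hκI) k hk
          rw [h1, ← h2]
          congr 2
          abel)
        (by
          intro x hx
          have h1 := hsum x (hle hx)
          have h2 := hsum (x + κ) (AddSubgroup.add_mem _ (hle hx) hκI)
          have h3 : x + κ ∉ C := by rw [add_comm]; exact hno x hx
          rw [if_neg h3] at h2
          rw [h1, ← sub_zero (∑ K ∈ I, F K x), h2, ← Finset.sum_sub_distrib]
          rw [← Finset.add_sum_erase _ _ hK, hF K hK x (hle hx) κ hκ, sub_self, zero_add])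
      exact ⟨K', hsubI K' hK', hK'C⟩
    · push Not at hcase
      have hB : IsBlkH G (I.sup id) := blk_finset_sup hblk
      -- divisibility
      have hdvd : ∀ K ∈ I, Nat.card K ∣ Nat.card {x : A // x ∈ C ∧ x ∈ I.sup id} := by
        intro K hK
        have hB' : IsBlkH G ((I.erase K).sup id) :=
          blk_finset_sup (fun K' h => hblk K' (Finset.mem_of_mem_erase h))
        have hdisj : ∀ x ∈ K, x ∈ (I.erase K).sup id → x = 0 := by
          intro x hx hx'
          have h1 := kill_sup _ hx'
          have h2 : Nat.card K • x = 0 := by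
            have h3 : Nat.card K • (⟨x, hx⟩ : K) = 0 := card_nsmul_eq_zero'
            exact congrArg Subtype.val h3
          have h4 : (Nat.card K).Coprime (∏ K' ∈ I.erase K, Nat.card K') := by
            apply Nat.Coprime.prod_right
            intro K' hK'
            exact hcop K hK K' (Finset.mem_of_mem_erase hK') (Finset.ne_of_mem_erase hK').symm
          have h5 : addOrderOf x = 1 := Nat.eq_one_of_dvd_coprimes h4
            (addOrderOf_dvd_iff_nsmul_eq_zero.mpr h2) (addOrderOf_dvd_iff_nsmul_eq_zero.mpr h1)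
          rwa [AddMonoid.addOrderOf_eq_one_iff] at h5
        have hex : ∀ κ : K, ∃ h ∈ G, (h 0 - κ ∈ (I.erase K).sup id) ∧ ∀ y, h y ∈ C ↔ y ∈ C := by
          intro κ
          obtain ⟨x, hx, hxC⟩ := hcase K hK κ κ.2
          obtain ⟨h, hG, h0, hh⟩ := hC _ hxC
          refine ⟨h, hG, ?_, hh⟩
          rw [h0, add_sub_cancel_left]; exact hx
        choose h hhG hh0 hhC using hex
        have hmem : ∀ (κ : K) (y : A), y ∈ (I.erase K).sup id →
            h κ y - κ ∈ (I.erase K).sup id := by
          intro κ y hy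
          have h1 : h κ y - h κ 0 ∈ (I.erase K).sup id := hB' _ (hhG κ) _ _ (by simpa using hy)
          have h2 : h κ y - κ = (h κ y - h κ 0) + (h κ 0 - κ) := by abel
          rw [h2]; exact AddSubgroup.add_mem _ h1 (hh0 κ)
        have hKle : K ≤ I.sup id := Finset.le_sup (f := id) hK
        have hle : (I.erase K).sup id ≤ I.sup id := Finset.sup_mono (Finset.erase_subset _ _)
        let φ : K × {x : A // x ∈ C ∧ x ∈ (I.erase K).sup id} →
            {x : A // x ∈ C ∧ x ∈ I.sup id} := fun p => ⟨h p.1 p.2.1, (hhC p.1 _).mpr p.2.2.1, by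
              have h1 := hmem p.1 p.2.1 p.2.2.2
              have h2 : h p.1 p.2.1 = (h p.1 p.2.1 - p.1) + p.1 := by abel
              rw [h2]
              exact AddSubgroup.add_mem _ (hle h1) (hKle p.1.2)⟩
        have hφ : Function.Bijective φ := by
          constructor
          · rintro ⟨κ, y⟩ ⟨κ', y'⟩ heq
            have h1 : h κ y.1 = h κ' y'.1 := congrArg Subtype.val heq
            have h2 := hmem κ y.1 y.2.2
            have h3 := hmem κ' y'.1 y'.2.2
            have h4 : (κ : A) - κ' ∈ (I.erase K).sup id := by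
              have : (κ : A) - κ' = (h κ' y'.1 - κ') - (h κ y.1 - κ) := by rw [h1]; abel
              rw [this]; exact AddSubgroup.sub_mem _ h3 h2
            have h5 : κ = κ' := by
              have := hdisj _ (K.sub_mem κ.2 κ'.2) h4
              rw [sub_eq_zero] at this
              exact Subtype.ext this
            subst h5
            have h6 : y = y' := Subtype.ext ((h κ).injective h1)
            rw [h6]
          · rintro ⟨z, hzC, hz⟩
            rw [sup_erase hK] at hz
            obtain ⟨κ, hκ, b, hb, rfl⟩ := AddSubgroup.mem_sup.mp hz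
            refine ⟨⟨⟨κ, hκ⟩, ⟨(h ⟨κ, hκ⟩)⁻¹ (κ + b), ?_, ?_⟩⟩, ?_⟩
            · rw [← hhC ⟨κ, hκ⟩]
              simpa using hzC
            · have h1 := hh0 ⟨κ, hκ⟩
              have h2 : κ + b - h ⟨κ, hκ⟩ 0 ∈ (I.erase K).sup id := by
                have : κ + b - h ⟨κ, hκ⟩ 0 = b - (h ⟨κ, hκ⟩ 0 - κ) := by abel
                rw [this]; exact AddSubgroup.sub_mem _ hb h1
              have h3 := hB' _ (G.inv_mem (hhG ⟨κ, hκ⟩)) _ _ h2
              simpa using h3
            · apply Subtype.ext
              simp [φ]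
        have hc := Nat.card_congr (Equiv.ofBijective φ hφ)
        rw [Nat.card_prod] at hc
        exact ⟨_, hc.symm⟩
      have hprod : (∏ K ∈ I, Nat.card K) ∣ Nat.card {x : A // x ∈ C ∧ x ∈ I.sup id} := by
        apply Finset.prod_dvd_of_isRelPrime
        · intro K hK K' hK' hne
          exact Nat.coprime_iff_isRelPrime.mp (hcop K hK K' hK' hne)
        · exact hdvd
      have hcardle : Nat.card (I.sup id : AddSubgroup A) ≤ ∏ K ∈ I, Nat.card K := by
        have := Fintype.ofFinite A
        have hpos : 0 < ∏ K ∈ I, Nat.card K := Finset.prod_pos (fun K _ => Nat.card_pos)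
        have h1 := IsAddCyclic.card_nsmul_eq_zero_le (α := A) (n := ∏ K ∈ I, Nat.card K) hpos
        refine le_trans ?_ h1
        rw [← Fintype.card_subtype, ← Nat.card_eq_fintype_card]
        apply Nat.card_le_card_of_injective
          (fun x : (I.sup id : AddSubgroup A) =>
            (⟨x.1, kill_sup I x.2⟩ : {a : A // (∏ K ∈ I, Nat.card K) • a = 0}))
        intro x y hxy
        have h2 := congrArg Subtype.val hxy
        exact Subtype.ext h2
      have hpos : 0 < Nat.card {x : A // x ∈ C ∧ x ∈ I.sup id} := by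
        have : Nonempty {x : A // x ∈ C ∧ x ∈ I.sup id} :=
          ⟨⟨0, hC0, AddSubgroup.zero_mem _⟩⟩
        exact Nat.card_pos
      have hge := Nat.le_of_dvd hpos hprod
      have hall : ∀ x ∈ I.sup id, x ∈ C := by
        let ψ : {x : A // x ∈ C ∧ x ∈ I.sup id} → (I.sup id : AddSubgroup A) :=
          fun x => ⟨x.1, x.2.2⟩
        have hψ : Function.Injective ψ := by
          intro x y hxy
          have h2 := congrArg Subtype.val hxy
          exact Subtype.ext h2
        have hbij : Function.Bijective ψ :=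
          (Nat.bijective_iff_injective_and_card ψ).mpr ⟨hψ,
            le_antisymm (Nat.card_le_card_of_injective ψ hψ) (hcardle.trans hge)⟩
        intro x hx
        obtain ⟨y, hy⟩ := hbij.2 ⟨x, hx⟩
        have : y.1 = x := congrArg Subtype.val hy
        rw [← this]; exact y.2.1
      obtain ⟨K, hK⟩ : I.Nonempty := by
        rw [← Finset.card_pos, hI]; omega
      exact ⟨K, hK, fun x hx => hall x (by
        have : K ≤ I.sup id := Finset.le_sup (f := id) hK
        exact this hx)⟩

end SR
end PCF
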