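import Pool.Agent.Work.MP_80ff4e_al_helper60.S2b

/-! # Block S2, part c: Moebius inversion, minimal blocks -/

set_option autoImplicit false

namespace PCF
namespace SR

variable {A : Type} [AddCommGroup A] {G : Subgroup (Equiv.Perm A)}

lemma blk_top : IsBlkH G (⊤ : AddSubgroup A) := fun _ _ _ _ _ => AddSubgroup.mem_top _

open Classical in
/-- the smallest block containing `a` -/
noncomputable def hull [Finite A] (G : Subgroup (Equiv.Perm A)) (a : A) : AddSubgroup A :=
  haveI := Fintype.ofFinite (AddSubgroup A)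
  (Finset.univ.filter (fun H : AddSubgroup A => IsBlkH G H ∧ a ∈ H)).inf id

lemma hull_blk [Finite A] (a : A) : IsBlkH G (hull G a) := by
  classical
  have := Fintype.ofFinite (AddSubgroup A)
  unfold hull
  apply Finset.inf_induction (p := fun H => IsBlkH G H) blk_top (fun _ h1 _ h2 => blk_inf h1 h2)
  intro H hH
  simp only [Finset.mem_filter] at hH
  exact hH.2.1

lemma mem_hull [Finite A] (a : A) : a ∈ hull G a := by
  classical
  have := Fintype.ofFinite (AddSubgroup A)
  unfold hull
  apply Finset.inf_induction (p := fun H : AddSubgroup A => a ∈ H) (AddSubgroup.mem_top _)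
    (fun _ h1 _ h2 => ⟨h1, h2⟩)
  intro H hH
  simp only [Finset.mem_filter] at hH
  exact hH.2.2

lemma hull_le [Finite A] {a : A} {H : AddSubgroup A} (hH : IsBlkH G H) (ha : a ∈ H) :
    hull G a ≤ H := by
  classical
  have := Fintype.ofFinite (AddSubgroup A)
  unfold hull
  exact Finset.inf_le (f := id) (by simp [hH, ha])

lemma exists_gen [IsAddCyclic A] (H : AddSubgroup A) : ∃ g ∈ H, ∀ x ∈ H, x ∈ AddSubgroup.zmultiples g := by
  obtain ⟨g, hg⟩ := IsAddCyclic.exists_generator (α := H)
  refine ⟨g, g.2, fun x hx => ?_⟩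
  obtain ⟨k, hk⟩ := AddSubgroup.mem_zmultiples_iff.mp (hg ⟨x, hx⟩)
  rw [AddSubgroup.mem_zmultiples_iff]
  exact ⟨k, congrArg Subtype.val hk⟩

open Classical in
/-- Moebius inversion over the lattice of blocks. -/
lemma mobius [Finite A] [IsAddCyclic A] [Fintype (AddSubgroup A)] (v : A → ℚ)
    (hv : ∀ a b, (∀ H : AddSubgroup A, IsBlkH G H → (a ∈ H ↔ b ∈ H)) → v a = v b) :
    ∃ c : AddSubgroup A → ℚ, (∀ H, ¬ IsBlkH G H → c H = 0) ∧
      ∀ a, v a = ∑ H : AddSubgroup A, if a ∈ H then c H else 0 := by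
  choose gen hgen hgen' using exists_gen (A := A)
  have hwf : WellFounded (fun H K : AddSubgroup A => K < H) := wellFounded_gt
  let step : (H : AddSubgroup A) → ((K : AddSubgroup A) → H < K → ℚ) → ℚ := fun H rec =>
    if IsBlkH G H then v (gen H) - ∑ K : AddSubgroup A, (if h : H < K then rec K h else 0) else 0
  let c : AddSubgroup A → ℚ := hwf.fix step
  have hc : ∀ H, c H = if IsBlkH G H then
      v (gen H) - ∑ K : AddSubgroup A, (if H < K then c K else 0) else 0 := by
    intro H
    change hwf.fix step H = _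
    rw [hwf.fix_eq]
    simp only [step, dite_eq_ite]
    rfl
  refine ⟨c, fun H hH => by rw [hc, if_neg hH], fun a => ?_⟩
  have h1 := hc (hull G a)
  rw [if_pos (hull_blk a)] at h1
  have h2 : v a = v (gen (hull G a)) := by
    apply hv
    intro H hH
    constructor
    · intro h
      exact hull_le hH h (hgen _)
    · intro h
      obtain ⟨k, hk⟩ := AddSubgroup.mem_zmultiples_iff.mp (hgen' _ _ (mem_hull (G := G) a))
      rw [← hk]
      exact H.zsmul_mem h k
  have h3 : v (gen (hull G a)) = c (hull G a) +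
      ∑ K : AddSubgroup A, (if hull G a < K then c K else 0) := by rw [h1]; ring
  rw [h2, h3]
  have h4 : ∀ K : AddSubgroup A, (if a ∈ K then c K else 0) =
      (if hull G a = K then c K else 0) + (if hull G a < K then c K else 0) := by
    intro K
    by_cases hK : IsBlkH G K
    · by_cases ha : a ∈ K
      · rw [if_pos ha]
        have hle := hull_le hK ha
        rcases hle.eq_or_lt with h | h
        · rw [if_pos h, if_neg (by rw [h]; exact lt_irrefl _), add_zero]
        · rw [if_neg h.ne, if_pos h, zero_add]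
      · rw [if_neg ha, if_neg, if_neg, add_zero]
        · intro h; exact ha (h.le (mem_hull a))
        · intro h; exact ha (h.le (mem_hull a))
    · have : c K = 0 := by rw [hc, if_neg hK]
      simp [this]
  rw [Finset.sum_congr rfl (fun K _ => h4 K), Finset.sum_add_distrib, Finset.sum_ite_eq,
    if_pos (Finset.mem_univ _)]

/-- below every non-zero block there is a minimal one. -/
lemma exists_min_blk [Finite A] {B : AddSubgroup A} (hB : IsBlkH G B) (hB0 : B ≠ ⊥) :
    ∃ K ≤ B, Minimal (fun K : AddSubgroup A => IsBlkH G K ∧ K ≠ ⊥) K := by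
  have hfin : {K : AddSubgroup A | IsBlkH G K ∧ K ≠ ⊥}.Finite := Set.toFinite _
  exact hfin.exists_le_minimal (a := B) ⟨hB, hB0⟩

lemma min_blk_coprime [Finite A] [IsAddCyclic A] {K K' : AddSubgroup A}
    (hK : Minimal (fun K : AddSubgroup A => IsBlkH G K ∧ K ≠ ⊥) K)
    (hK' : Minimal (fun K : AddSubgroup A => IsBlkH G K ∧ K ≠ ⊥) K') (hne : K ≠ K') :
    (Nat.card K).Coprime (Nat.card K') := by
  have hinf : K ⊓ K' = ⊥ := by
    by_contra h
    have hb : IsBlkH G (K ⊓ K') ∧ K ⊓ K' ≠ ⊥ := ⟨blk_inf hK.prop.1 hK'.prop.1, h⟩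
    have h1 := hK.le_of_le hb inf_le_left
    have h2 := hK'.le_of_le hb inf_le_right
    exact hne (le_antisymm (h1.trans inf_le_right) (h2.trans inf_le_left))
  apply Nat.coprime_of_dvd
  intro q hq hqK hqK'
  have hqf : Fact q.Prime := ⟨hq⟩
  obtain ⟨x, hx⟩ := exists_prime_addOrderOf_dvd_card' (G := K) q hqK
  obtain ⟨y, hy⟩ := exists_prime_addOrderOf_dvd_card' (G := K') q hqK'
  obtain ⟨u, -, hu⟩ := exists_unit_of_order (A := A) (a := (x : A)) (b := (y : A))
    (by rw [AddSubgroup.addOrderOf_coe, AddSubgroup.addOrderOf_coe, hx, hy])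
  have hyK : (y : A) ∈ K ⊓ K' := by
    refine ⟨?_, y.2⟩
    change (y : A) ∈ K
    rw [hu]; exact K.nsmul_mem x.2 u
  rw [hinf, AddSubgroup.mem_bot] at hyK
  have h3 : addOrderOf (y : A) = q := by rw [AddSubgroup.addOrderOf_coe, hy]
  rw [hyK, addOrderOf_zero] at h3
  exact hq.one_lt.ne h3

end SR
end PCF
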