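import Pool.Agent.Work.MP_80ff4e_al_helper60.S2c

/-! # Block S2, part d: from the kernel `p` to the two block systems -/

set_option autoImplicit false

namespace PCF
namespace SR

variable {A : Type} [AddCommGroup A] {G : Subgroup (Equiv.Perm A)}

open Classical in
theorem core [Fintype A] [IsAddCyclic A] (hG : ∀ c : A, Equiv.addRight c ∈ G) {C : Set A}
    (hC0 : (0 : A) ∈ C) (hC : ∀ x ∈ C, ∃ h ∈ G, h 0 = x ∧ ∀ y, h y ∈ C ↔ y ∈ C)
    {p : A → ℚ} (hp0 : p ≠ 0) (hp : RatInv G p)
    (hpC : ∀ i, ∑ j ∈ Finset.univ.filter (fun j => j ∈ C), p (i - j) = 0) :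
    ∃ H B : AddSubgroup A, IsBlkH G H ∧ IsBlkH G B ∧ H < B ∧
      ∀ a ∈ C, ∀ b, b - a ∈ B → ∃ c ∈ C, b - c ∈ H := by
  have := Fintype.ofFinite (AddSubgroup A)
  obtain ⟨c, hcblk, hc⟩ := mobius (G := G) p (fun a b h => stmt_S1 A G hG p hp a b h)
  -- a minimal block with non-zero coefficient
  obtain ⟨H, hHmin⟩ : ∃ H, Minimal (fun H : AddSubgroup A => c H ≠ 0) H := by
    have hfin : {H : AddSubgroup A | c H ≠ 0}.Finite := Set.toFinite _
    have hnon : {H : AddSubgroup A | c H ≠ 0}.Nonempty := by
      by_contra h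
      rw [Set.not_nonempty_iff_eq_empty] at h
      apply hp0
      funext a
      rw [hc a]
      apply Finset.sum_eq_zero
      intro K _
      have : c K = 0 := by
        by_contra hK
        have : K ∈ {H : AddSubgroup A | c H ≠ 0} := hK
        rw [h] at this
        exact this
      simp [this]
    exact hfin.exists_minimal hnon
  have hcH : c H ≠ 0 := hHmin.prop
  have hH : IsBlkH G H := by
    by_contra h
    exact hcH (hcblk H h)
  -- the functions
  let f : AddSubgroup A → A → ℚ := fun K x =>
    ∑ j ∈ Finset.univ.filter (fun j => j ∈ C), ∑ h : H, if x + h - j ∈ K then c K else 0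
  have hfsum : ∀ x, ∑ K : AddSubgroup A, f K x = 0 := by
    intro x
    simp only [f]
    rw [Finset.sum_comm]
    have h1 : ∀ j ∈ Finset.univ.filter (fun j => j ∈ C), ∑ K : AddSubgroup A, ∑ h : H,
        (if x + h - j ∈ K then c K else 0) = ∑ h : H, p (x + h - j) := by
      intro j _
      rw [Finset.sum_comm]
      refine Finset.sum_congr rfl (fun h _ => ?_)
      rw [hc]
    rw [Finset.sum_congr rfl h1, Finset.sum_comm]
    apply Finset.sum_eq_zero
    intro h _
    exact hpC _
  have hfH : ∀ K x, ∀ k ∈ H, f K (x + k) = f K x := by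
    intro K x k hk
    simp only [f]
    refine Finset.sum_congr rfl (fun j _ => ?_)
    refine Fintype.sum_equiv (Equiv.addLeft (⟨k, hk⟩ : H)) _ _ (fun h => ?_)
    have e : x + k + (h : A) = x + ((⟨k, hk⟩ + h : H) : A) := by
      rw [AddSubgroup.coe_add, add_assoc]
    rw [e]; rfl
  have hfK : ∀ K x, ∀ k ∈ K, f K (x + k) = f K x := by
    intro K x k hk
    simp only [f]
    refine Finset.sum_congr rfl (fun j _ => Finset.sum_congr rfl (fun h _ => ?_))
    have : x + k + h - j ∈ K ↔ x + h - j ∈ K := by
      have : x + k + h - j = (x + h - j) + k := by abel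
      rw [this]
      exact K.add_mem_cancel_right hk
    simp only [this]
  have hf0 : ∀ K, c K = 0 → ∀ x, f K x = 0 := by
    intro K hK x
    simp [f, hK]
  -- number of points of `C` in a coset of `H`
  set n₀ : ℚ := ((Finset.univ.filter (fun j => j ∈ C ∧ j ∈ H)).card : ℚ) with hn₀
  have hn₀pos : n₀ ≠ 0 := by
    rw [hn₀, Nat.cast_ne_zero]
    apply Finset.card_ne_zero_of_mem (a := 0)
    simp [hC0]
  have hfHx : ∀ x, f H x = c H * (Nat.card H) *
      (if ∃ y ∈ C, y - x ∈ H then n₀ else 0) := by
    intro x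
    have h1 : ∀ j, (∑ h : H, if x + h - j ∈ H then c H else 0) =
        if j - x ∈ H then c H * Nat.card H else 0 := by
      intro j
      have h2 : ∀ h : H, (x + h - j ∈ H) ↔ j - x ∈ H := by
        intro h
        have : x + h - j = -(j - x) + h := by abel
        rw [this, H.add_mem_cancel_right h.2, neg_mem_iff]
      simp only [h2]
      by_cases h3 : j - x ∈ H
      · simp only [if_pos h3]
        rw [Finset.sum_const, Finset.card_univ, Nat.card_eq_fintype_card, nsmul_eq_mul, mul_comm]
      · simp only [if_neg h3]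
        rw [Finset.sum_const_zero]
    simp only [f]
    rw [Finset.sum_congr rfl (fun j _ => h1 j), ← Finset.sum_filter, Finset.sum_const,
      Finset.filter_filter, nsmul_eq_mul]
    by_cases hx : ∃ y ∈ C, y - x ∈ H
    · rw [if_pos hx]
      obtain ⟨y, hy, hyx⟩ := hx
      obtain ⟨g, hg, hg0, hgC⟩ := hC y hy
      have hcard : (Finset.univ.filter (fun j => j ∈ C ∧ j ∈ H)).card =
          (Finset.univ.filter (fun j => j ∈ C ∧ j - x ∈ H)).card := by
        apply Finset.card_bij (fun j _ => g j)
        · intro j hj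
          simp only [Finset.mem_filter, Finset.mem_univ, true_and] at hj ⊢
          refine ⟨(hgC j).mpr hj.1, ?_⟩
          have h4 := hH g hg j 0 (by simpa using hj.2)
          rw [hg0] at h4
          have : g j - x = (g j - y) + (y - x) := by abel
          rw [this]; exact H.add_mem h4 hyx
        · intro j _ j' _ hjj'
          exact g.injective hjj'
        · intro j hj
          simp only [Finset.mem_filter, Finset.mem_univ, true_and] at hj
          refine ⟨g⁻¹ j, ?_, by simp⟩
          simp only [Finset.mem_filter, Finset.mem_univ, true_and]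
          constructor
          · rw [← hgC]; simpa using hj.1
          · have h5 : j - g 0 ∈ H := by
              rw [hg0]
              have : j - y = (j - x) - (y - x) := by abel
              rw [this]; exact H.sub_mem hj.2 hyx
            have h6 := hH _ (G.inv_mem hg) _ _ h5
            simpa using h6
      rw [hn₀, hcard]; ring
    · rw [if_neg hx]
      have : (Finset.univ.filter (fun j => j ∈ C ∧ j - x ∈ H)) = ∅ := by
        rw [Finset.filter_eq_empty_iff]
        intro j _ hj
        exact hx ⟨j, hj.1, hj.2⟩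
      rw [this]; simp
  -- the quotient
  let mk : A → A ⧸ H := QuotientAddGroup.mk
  have hmk : ∀ x y : A, mk x = mk y ↔ y - x ∈ H := by
    intro x y
    change (QuotientAddGroup.mk x : A ⧸ H) = QuotientAddGroup.mk y ↔ _
    rw [QuotientAddGroup.eq, neg_add_eq_sub]
  have hcyc : IsAddCyclic (A ⧸ H) :=
    isAddCyclic_of_surjective (QuotientAddGroup.mk' H) (QuotientAddGroup.mk'_surjective H)
  let C' : Set (A ⧸ H) := {z | ∃ x ∈ C, mk x = z}
  have hC'0 : (0 : A ⧸ H) ∈ C' := ⟨0, hC0, rfl⟩
  have hC' : ∀ x ∈ C', ∃ h ∈ quoG G H, h 0 = x ∧ ∀ y, h y ∈ C' ↔ y ∈ C' := by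
    rintro z ⟨x, hx, rfl⟩
    obtain ⟨g, hg, hg0, hgC⟩ := hC x hx
    obtain ⟨σ, hσ, h1⟩ := exists_quo hH hg
    have h1' : ∀ x : A, σ (mk x) = mk (g x) := h1
    refine ⟨σ, hσ, ?_, ?_⟩
    · rw [← hg0, ← h1']; rfl
    · intro y
      obtain ⟨y, rfl⟩ := QuotientAddGroup.mk_surjective y
      change σ (mk y) ∈ C' ↔ mk y ∈ C'
      constructor
      · rintro ⟨w, hw, hwy⟩
        refine ⟨g⁻¹ w, ?_, ?_⟩
        · rw [← hgC]; simpa using hw
        · apply σ.injective
          rw [← hwy, h1']; simp
      · rintro ⟨w, hw, hwy⟩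
        refine ⟨g w, (hgC w).mpr hw, ?_⟩
        rw [← hwy, h1']
  have := Fintype.ofFinite (AddSubgroup (A ⧸ H))
  let I : Finset (AddSubgroup (A ⧸ H)) := Finset.univ.filter
    (fun K => Minimal (fun K : AddSubgroup (A ⧸ H) => IsBlkH (quoG G H) K ∧ K ≠ ⊥) K)
  have hI : ∀ K ∈ I, Minimal (fun K : AddSubgroup (A ⧸ H) => IsBlkH (quoG G H) K ∧ K ≠ ⊥) K := by
    intro K hK
    simp only [I, Finset.mem_filter, Finset.mem_univ, true_and] at hK
    exact hK
  -- choice of a minimal block below the image of `K`
  have hex : ∀ K : AddSubgroup A, c K ≠ 0 → K ≠ H → ∃ M ∈ I, M ≤ K.map (QuotientAddGroup.mk' H) := by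
    intro K hcK hKH
    have hK : IsBlkH G K := by
      by_contra h
      exact hcK (hcblk K h)
    have hsset := quo_image hH (blk_sset hK)
    have hblk : IsBlkH (quoG G H) (K.map (QuotientAddGroup.mk' H)) := by
      apply blk_of_sset
      have e : ((K.map (QuotientAddGroup.mk' H) : AddSubgroup (A ⧸ H)) : Set (A ⧸ H)) =
          {y | ∃ x ∈ (K : Set A), QuotientAddGroup.mk x = y} := by
        ext y; rfl
      rw [e]; exact hsset
    have hne : K.map (QuotientAddGroup.mk' H) ≠ ⊥ := by
      intro h
      have hle : K ≤ H := by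
        rw [AddSubgroup.map_eq_bot_iff, QuotientAddGroup.ker_mk'] at h
        exact h
      exact hKH (le_antisymm hle (hHmin.le_of_le hcK hle))
    obtain ⟨M, hM, hMmin⟩ := exists_min_blk hblk hne
    exact ⟨M, by simp [I, hMmin], hM⟩
  choose! τ hτI hτle using hex
  let F : AddSubgroup (A ⧸ H) → A ⧸ H → ℚ := fun M z =>
    ∑ K ∈ Finset.univ.filter (fun K : AddSubgroup A => c K ≠ 0 ∧ K ≠ H ∧ τ K = M),
      -(f K z.out) / (c H * Nat.card H * n₀)
  obtain ⟨M, hMI, hMC⟩ := comb (G := quoG G H) hC'0 hC' _ I rfl (fun K hK => (hI K hK).prop.1)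
    (fun K hK K' hK' hne => min_blk_coprime (hI K hK) (hI K' hK') hne) F
    (by
      intro M hM z _ k hk
      simp only [F]
      refine Finset.sum_congr rfl (fun K hK => ?_)
      simp only [Finset.mem_filter, Finset.mem_univ, true_and] at hK
      obtain ⟨hK1, hK2, hK3⟩ := hK
      have hkK : k ∈ K.map (QuotientAddGroup.mk' H) := hτle K hK1 hK2 (by rw [hK3]; exact hk)
      obtain ⟨k', hk', rfl⟩ := hkK
      have h1 : (z + (QuotientAddGroup.mk' H) k').out - (z.out + k') ∈ H := by
        rw [← hmk]
        change (QuotientAddGroup.mk (z.out + k') : A ⧸ H) = QuotientAddGroup.mk _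
        rw [QuotientAddGroup.out_eq', QuotientAddGroup.mk_add, QuotientAddGroup.out_eq']
        rfl
      have h2 : (z + (QuotientAddGroup.mk' H) k').out = (z.out + k') +
          ((z + (QuotientAddGroup.mk' H) k').out - (z.out + k')) := by abel
      have h3 : f K ((z + (QuotientAddGroup.mk' H) k').out) = f K z.out := by
        rw [h2, hfH K _ _ h1, hfK K _ _ hk']
      rw [h3])
    (by
      intro z _
      simp only [F]
      have hfib : ∑ M ∈ I, ∑ K ∈ Finset.univ.filter
          (fun K : AddSubgroup A => c K ≠ 0 ∧ K ≠ H ∧ τ K = M),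
          -(f K z.out) / (c H * Nat.card H * n₀) =
          ∑ K ∈ Finset.univ.filter (fun K : AddSubgroup A => c K ≠ 0 ∧ K ≠ H),
          -(f K z.out) / (c H * Nat.card H * n₀) := by
        rw [← Finset.sum_fiberwise_of_maps_to (s := Finset.univ.filter
          (fun K : AddSubgroup A => c K ≠ 0 ∧ K ≠ H)) (t := I) (g := τ)]
        · refine Finset.sum_congr rfl (fun M _ => ?_)
          rw [Finset.filter_filter]
          refine Finset.sum_congr ?_ (fun _ _ => rfl)
          ext K
          simp [and_assoc]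
        · intro K hK
          simp only [Finset.mem_filter, Finset.mem_univ, true_and] at hK
          exact hτI K hK.1 hK.2
      rw [hfib, ← Finset.sum_div, Finset.sum_neg_distrib]
      have htot := hfsum z.out
      have hsplit : ∑ K : AddSubgroup A, f K z.out = f H z.out +
          ∑ K ∈ Finset.univ.filter (fun K : AddSubgroup A => c K ≠ 0 ∧ K ≠ H), f K z.out := by
        rw [← Finset.add_sum_erase _ _ (Finset.mem_univ H)]
        congr 1
        symm
        apply Finset.sum_subset
        · intro K hK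
          simp only [Finset.mem_filter, Finset.mem_univ, true_and] at hK
          simp [hK.2]
        · intro K hK hK'
          simp only [Finset.mem_filter, Finset.mem_univ, true_and, Finset.mem_erase] at hK hK'
          apply hf0
          by_contra h
          exact hK' ⟨h, hK.1⟩
      rw [hsplit] at htot
      have h1 : -∑ K ∈ Finset.univ.filter (fun K : AddSubgroup A => c K ≠ 0 ∧ K ≠ H),
          f K z.out = f H z.out := by linarith
      rw [h1, hfHx]
      have hcard : (Nat.card H : ℚ) ≠ 0 := by
        rw [Nat.cast_ne_zero]; exact Nat.card_pos.ne'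
      have hiff : (z ∈ C') ↔ ∃ y ∈ C, y - z.out ∈ H := by
        constructor
        · rintro ⟨y, hy, hyz⟩
          refine ⟨y, hy, ?_⟩
          rw [← hmk, hyz]
          exact QuotientAddGroup.out_eq' z
        · rintro ⟨y, hy, hyz⟩
          refine ⟨y, hy, ?_⟩
          rw [← hmk] at hyz
          rw [← hyz]
          exact QuotientAddGroup.out_eq' z
      by_cases hz : z ∈ C'
      · rw [if_pos hz, if_pos (hiff.mp hz)]
        field_simp
      · rw [if_neg hz, if_neg (fun h => hz (hiff.mpr h))]
        simp)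
  -- conclusion
  have hMblk := (hI M hMI).prop.1
  have hM0 := (hI M hMI).prop.2
  refine ⟨H, M.comap (QuotientAddGroup.mk' H), hH, quo_comap hH hMblk, ?_, ?_⟩
  · refine lt_of_le_of_ne ?_ ?_
    · intro x hx
      rw [AddSubgroup.mem_comap]
      have : (QuotientAddGroup.mk' H) x = 0 := by
        rw [QuotientAddGroup.mk'_apply, QuotientAddGroup.eq_zero_iff]; exact hx
      rw [this]; exact M.zero_mem
    · intro h
      apply hM0
      rw [AddSubgroup.eq_bot_iff_forall]
      intro z hz
      obtain ⟨x, rfl⟩ := QuotientAddGroup.mk_surjective z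
      have hx : x ∈ M.comap (QuotientAddGroup.mk' H) := hz
      rw [← h] at hx
      rw [QuotientAddGroup.eq_zero_iff]; exact hx
  · intro a ha b hb
    obtain ⟨g, hg, hg0, hgC⟩ := hC a ha
    have h1 := quo_comap hH hMblk g⁻¹ (G.inv_mem hg) _ _ hb
    have h2 : g⁻¹ b ∈ M.comap (QuotientAddGroup.mk' H) := by
      rw [← hg0] at h1
      simpa using h1
    obtain ⟨c', hc', hcc⟩ := hMC h2
    refine ⟨g c', (hgC c').mpr hc', ?_⟩
    have h3 : g⁻¹ b - c' ∈ H := (hmk _ _).mp hcc
    have h4 := hH g hg _ _ h3
    simpa using h4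

end SR
end PCF
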