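import Pool.Agent.Work.MP_80ff4e_al_helper60.S2d

/-! # Block S2, part e: the equivariant projection -/

set_option autoImplicit false

namespace PCF
namespace SR

/-- an equivariant projection onto an invariant subspace of `Ω → ℚ` (Maschke) -/
lemma exists_proj {Ω : Type} [Fintype Ω] (G : Subgroup (Equiv.Perm Ω))
    (W : Submodule ℚ (Ω → ℚ)) (hW : ∀ h ∈ G, ∀ r ∈ W, (fun x => r (h x)) ∈ W) :
    ∃ P : (Ω → ℚ) →ₗ[ℚ] (Ω → ℚ), (∀ v, P v ∈ W) ∧ (∀ w ∈ W, P w = w) ∧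
      ∀ k ∈ G, ∀ v x, P (fun y => v (k y)) x = P v (k x) := by
  classical
  obtain ⟨π, hπ⟩ := W.subtype.exists_leftInverse_of_injective (Submodule.ker_subtype W)
  let P₀ : (Ω → ℚ) →ₗ[ℚ] (Ω → ℚ) := W.subtype ∘ₗ π
  have h1 : ∀ v, P₀ v ∈ W := fun v => (π v).2
  have h2 : ∀ w ∈ W, P₀ w = w := by
    intro w hw
    have := LinearMap.congr_fun hπ ⟨w, hw⟩
    simp only [LinearMap.comp_apply, LinearMap.id_apply] at this
    change ((π w : W) : Ω → ℚ) = w
    exact congrArg Subtype.val this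
  let T : Equiv.Perm Ω → ((Ω → ℚ) →ₗ[ℚ] (Ω → ℚ)) := fun h => LinearMap.funLeft ℚ ℚ h
  have hT : ∀ h v x, T h v x = v (h x) := fun h v x => rfl
  have := Fintype.ofFinite G
  let P : (Ω → ℚ) →ₗ[ℚ] (Ω → ℚ) :=
    ((Fintype.card G : ℚ)⁻¹) • ∑ h : G, (T h) ∘ₗ P₀ ∘ₗ (T (h⁻¹ : G))
  have hP : ∀ v, P v = ((Fintype.card G : ℚ)⁻¹) • ∑ h : G, T h (P₀ (T (h⁻¹ : G) v)) := by
    intro v
    simp only [P, LinearMap.smul_apply, LinearMap.sum_apply, LinearMap.comp_apply]
  have hcard : (Fintype.card G : ℚ) ≠ 0 := by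
    rw [Nat.cast_ne_zero]; exact Fintype.card_ne_zero
  refine ⟨P, ?_, ?_, ?_⟩
  · intro v
    rw [hP]
    apply W.smul_mem
    apply W.sum_mem
    intro h _
    exact hW h h.2 _ (h1 _)
  · intro w hw
    rw [hP]
    have h3 : ∀ h : G, T h (P₀ (T (h⁻¹ : G) w)) = w := by
      intro h
      have h4 : T (h⁻¹ : G) w ∈ W := hW _ (h⁻¹ : G).2 _ hw
      rw [h2 _ h4]
      funext x
      rw [hT, hT]
      simp
    rw [Finset.sum_congr rfl (fun h _ => h3 h), Finset.sum_const, Finset.card_univ,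
      ← Nat.cast_smul_eq_nsmul ℚ, smul_smul, inv_mul_cancel₀ hcard, one_smul]
  · intro k hk v x
    rw [hP, hP]
    simp only [Pi.smul_apply, Finset.sum_apply, smul_eq_mul]
    congr 1
    refine Fintype.sum_equiv (Equiv.mulRight (⟨k, hk⟩⁻¹ : G)) _ _ (fun h => ?_)
    rw [hT, hT]
    have e1 : (T (h⁻¹ : G)) (fun y => v (k y)) =
        T (((Equiv.mulRight (⟨k, hk⟩⁻¹ : G)) h)⁻¹ : G) v := by
      funext y
      rw [hT, hT]
      simp
    have e2 : (((Equiv.mulRight (⟨k, hk⟩⁻¹ : G)) h : G) : Equiv.Perm Ω) (k x) =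
        (h : Equiv.Perm Ω) x := by
      simp
    rw [e1, e2]

open Classical in
theorem main_A {A : Type} [AddCommGroup A] [Fintype A] [IsAddCyclic A]
    {G : Subgroup (Equiv.Perm A)} (hG : ∀ c : A, Equiv.addRight c ∈ G) {C : Set A}
    (hC0 : (0 : A) ∈ C) (hC : ∀ x ∈ C, ∃ h ∈ G, h 0 = x ∧ ∀ y, h y ∈ C ↔ y ∈ C)
    {r : A → ℚ} (hr0 : r ≠ 0)
    (hr : ∀ h ∈ G, ∑ j ∈ Finset.univ.filter (fun j => j ∈ C), r (h j) = 0) :
    ∃ H B : AddSubgroup A, IsBlkH G H ∧ IsBlkH G B ∧ H < B ∧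
      ∀ a ∈ C, ∀ b, b - a ∈ B → ∃ c ∈ C, b - c ∈ H := by
  let W : Submodule ℚ (A → ℚ) :=
    { carrier := {r | ∀ h ∈ G, ∑ j ∈ Finset.univ.filter (fun j => j ∈ C), r (h j) = 0}
      zero_mem' := by intro h _; simp
      add_mem' := by
        intro a b ha hb h hh
        simp only [Pi.add_apply]
        rw [Finset.sum_add_distrib, ha h hh, hb h hh, add_zero]
      smul_mem' := by
        intro c a ha h hh
        simp only [Pi.smul_apply]
        rw [← Finset.smul_sum, ha h hh, smul_zero] }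
  have hWmem : ∀ r, r ∈ W ↔ ∀ h ∈ G, ∑ j ∈ Finset.univ.filter (fun j => j ∈ C), r (h j) = 0 :=
    fun r => Iff.rfl
  have hW : ∀ h ∈ G, ∀ r ∈ W, (fun x => r (h x)) ∈ W := by
    intro h hh r hr k hk
    exact hr (h * k) (G.mul_mem hh hk)
  obtain ⟨P, hP1, hP2, hP3⟩ := exists_proj G W hW
  let δ : A → A → ℚ := fun j x => if x = j then 1 else 0
  set p : A → ℚ := P (δ 0) with hpdef
  have hδ : ∀ k ∈ G, ∀ i j, P (δ j) i = P (δ (k j)) (k i) := by
    intro k hk i j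
    have h1 : δ j = fun y => δ (k j) (k y) := by
      funext y
      simp [δ]
    conv_lhs => rw [h1]
    exact hP3 k hk _ _
  have hpδ : ∀ i j, P (δ j) i = p (i - j) := by
    intro i j
    have := hδ (Equiv.addRight (-j)) (hG _) i j
    rw [this]
    simp [hpdef, sub_eq_add_neg]
  have hpinv : ∀ g ∈ G, ∀ i j : A, p (g i - g j) = p (i - j) := by
    intro g hg i j
    rw [← hpδ, ← hpδ, ← hδ g hg]
  have hexp : ∀ w ∈ W, ∀ i, w i = ∑ k, w k * p (i - k) := by
    intro w hw i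
    have h1 : w = ∑ k : A, w k • δ k := by
      funext x
      simp [δ]
    have h2 : P w = ∑ k : A, w k • P (δ k) := by
      conv_lhs => rw [h1]
      rw [map_sum]
      refine Finset.sum_congr rfl (fun k _ => ?_)
      rw [map_smul]
    have h3 := congrFun h2 i
    rw [hP2 w hw] at h3
    rw [h3, Finset.sum_apply]
    refine Finset.sum_congr rfl (fun k _ => ?_)
    rw [Pi.smul_apply, hpδ, smul_eq_mul]
  have hpW : p ∈ W := hP1 _
  have hp0 : p ≠ 0 := by
    intro h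
    apply hr0
    funext i
    rw [hexp r hr i, h]
    simp
  have hunit := idem_unit p (fun i => (hexp p hpW i).symm)
  have hpR : RatInv G p := by
    refine ⟨hpinv, fun a b hab => ?_⟩
    obtain ⟨u, hu, rfl⟩ := exists_unit_of_order hab
    exact (hunit u hu a).symm
  refine core hG hC0 hC hp0 hpR (fun i => ?_)
  have h1 := (hWmem p).mp hpW (Equiv.addRight (-i)) (hG _)
  rw [← h1]
  refine Finset.sum_congr rfl (fun j _ => ?_)
  apply hpR.2
  have : (Equiv.addRight (-i)) j = -(i - j) := by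
    simp [sub_eq_add_neg]
  rw [this, addOrderOf_neg]

end SR

end PCF
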